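import Pool.Agent.WM66.Psi

/-!
Strings of `V` with small central value give strings of `V ⊗ V` that start below the window.
-/

namespace Pool.Agent.WM66

open Module Matrix Pool.Agent.WM77 Finset Kronecker

section
variable {κ : Type} [Fintype κ] [DecidableEq κ]

theorem kron_comm_nil {Φ Ψ : Matrix κ κ ℂ} (hc : Commute Φ Ψ) (hn : IsNilpotent (Φ - Ψ)) :
    Commute (Φ ⊗ₖ Φ) (Ψ ⊗ₖ Ψ) ∧ IsNilpotent (Φ ⊗ₖ Φ - Ψ ⊗ₖ Ψ) := by
  have kk : ∀ (A B : Matrix κ κ ℂ) (A' B' : Matrix κ κ ℂ),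
      (A ⊗ₖ A') * (B ⊗ₖ B') = (A * B) ⊗ₖ (A' * B') := fun A B A' B' =>
    (Matrix.mul_kronecker_mul A B A' B').symm
  refine ⟨?_, ?_⟩
  · rw [Commute, SemiconjBy, kk, kk, hc.eq]
  · have e1 : Φ ⊗ₖ Φ - Ψ ⊗ₖ Ψ = (Φ - Ψ) ⊗ₖ Φ + Ψ ⊗ₖ (Φ - Ψ) := by
      rw [sub_kron, kron_sub]
      abel
    rw [e1]
    have c1 : Commute (Φ - Ψ) Ψ := hc.sub_left (Commute.refl _)
    have c2 : Commute Φ (Φ - Ψ) := (Commute.refl _).sub_right hc
    apply Commute.isNilpotent_add
    · rw [Commute, SemiconjBy, kk, kk, c1.eq, c2.eq]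
    · obtain ⟨k, hk⟩ := hn
      refine ⟨k, ?_⟩
      have : ∀ k : ℕ, ((Φ - Ψ) ⊗ₖ Φ) ^ k = ((Φ - Ψ) ^ k) ⊗ₖ (Φ ^ k) := by
        intro k
        induction k with
        | zero => simp
        | succ k ih => rw [pow_succ, ih, kk, ← pow_succ, ← pow_succ]
      rw [this, hk, Matrix.zero_kronecker]
    · obtain ⟨k, hk⟩ := hn
      refine ⟨k, ?_⟩
      have : ∀ k : ℕ, (Ψ ⊗ₖ (Φ - Ψ)) ^ k = (Ψ ^ k) ⊗ₖ ((Φ - Ψ) ^ k) := by
        intro k
        induction k with
        | zero => simp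
        | succ k ih => rw [pow_succ, ih, kk, ← pow_succ, ← pow_succ]
      rw [this, hk, Matrix.kronecker_zero]

open Classical in
theorem low_count {q : ℝ} (hq : 1 < q) {Φ N : Matrix κ κ ℂ} (D : StrData q Φ N)
    (D₂ : StrData q (Φ ⊗ₖ Φ) (N ⊗ₖ (1 : Matrix κ κ ℂ) + (1 : Matrix κ κ ℂ) ⊗ₖ N)) :
    (univ.filter fun s => ‖D.β s‖ ^ 2 < q ^ (D.a s - 1)).card
      ≤ (univ.filter fun t => ‖D₂.β t‖ < 1).card := by
  have hq0 : 0 < q := by linarith
  set Sm := univ.filter fun s => ‖D.β s‖ ^ 2 < q ^ (D.a s - 1) with hSm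
  set Tm := univ.filter fun t => ‖D₂.β t‖ < 1 with hTm
  obtain ⟨hcomm, M, hM⟩ := kron_comm_nil D.P_comm D.P_nil
  obtain ⟨M', hM'⟩ := D₂.P_nil
  -- each functional vanishes on the other strings
  have hzero : ∀ s ∈ Sm, ∀ t, t ∉ Tm → D.psi s ⬝ᵥ D₂.v t = 0 := by
    intro s hs t ht
    rw [hSm, mem_filter] at hs
    rw [hTm, mem_filter] at ht
    have ht' : 1 ≤ ‖D₂.β t‖ := by
      by_contra h
      exact ht ⟨mem_univ _, not_le.mp h⟩
    have hne : D.β s ^ 2 * (q : ℂ)⁻¹ ^ (D.a s - 1) ≠ D₂.β t := by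
      intro h
      rw [← h, norm_mul, norm_pow, norm_pow, norm_inv, Complex.norm_real, Real.norm_eq_abs,
        abs_of_pos hq0, inv_pow, ← div_eq_mul_inv, le_div_iff₀ (by positivity), one_mul] at ht'
      linarith [hs.2]
    apply dot_zero_of_ne (Φ ⊗ₖ Φ) _ _ _ _ hne M M'
    · exact vecMul_gen _ _ hcomm M hM _ _ (D.psi_P s)
    · apply mulVec_gen _ _ D₂.P_comm M' hM'
      have := D₂.P_w t 0
      rw [pow_zero, mul_one] at this
      exact this
  -- the linear map
  let f : (Sm → ℂ) →ₗ[ℂ] (Tm → ℂ) :=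
    { toFun := fun g t => ∑ s : Sm, g s * (D.psi s ⬝ᵥ D₂.v t)
      map_add' := by
        intro g g'
        funext t
        simp only [Pi.add_apply, add_mul, Finset.sum_add_distrib]
      map_smul' := by
        intro c g
        funext t
        simp only [Pi.smul_apply, smul_eq_mul, RingHom.id_apply, Finset.mul_sum, mul_assoc] }
  have hf : Function.Injective f := by
    rw [← LinearMap.ker_eq_bot, LinearMap.ker_eq_bot']
    intro g hg
    have hg' : ∀ t, ∑ s : Sm, g s * (D.psi s ⬝ᵥ D₂.v t) = 0 := by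
      intro t
      by_cases ht : t ∈ Tm
      · exact congrFun hg ⟨t, ht⟩
      · apply Finset.sum_eq_zero
        intro s _
        rw [hzero s s.2 t ht, mul_zero]
    have h0 : (∑ s : Sm, g s • D.psi s) = 0 := by
      apply D₂.ext_row
      intro t j
      rw [zero_dotProduct, sum_dotProduct]
      rcases j with _ | j
      · have := hg' t
        simp only [smul_dotProduct, smul_eq_mul]
        exact this
      · apply Finset.sum_eq_zero
        intro s _
        rw [← D₂.N_w, smul_dotProduct, Matrix.dotProduct_mulVec, D.psi_N, zero_dotProduct,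
          smul_zero]
    funext s'
    have h1 := congrArg (fun x => x ⬝ᵥ tn (D.w s' 0) (D.w s' (D.a s' - 1))) h0
    simp only [zero_dotProduct, sum_dotProduct, smul_dotProduct, D.psi_dot, smul_eq_mul,
      mul_ite, mul_one, mul_zero] at h1
    rw [Finset.sum_eq_single s'] at h1
    · simpa using h1
    · intro s _ hs
      rw [if_neg]
      intro h
      exact hs (Subtype.ext h)
    · intro h
      exact absurd (mem_univ _) h
  have h2 := LinearMap.finrank_le_finrank_of_injective hf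
  rw [Module.finrank_fintype_fun_eq_card, Module.finrank_fintype_fun_eq_card,
    Fintype.card_coe, Fintype.card_coe] at h2
  exact h2

end

end Pool.Agent.WM66
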