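import Pool.Agent.WM77.Defs

/-!
The space of endomorphisms of positive Tate weight that commute with `N`.
-/

namespace Pool.Agent.WM66

open Matrix

/-- The operator `F ↦ Φ F Φ⁻¹` on matrices. -/
noncomputable def adj {b : ℕ} (Φ : Matrix (Fin b) (Fin b) ℂ) :
    Module.End ℂ (Matrix (Fin b) (Fin b) ℂ) :=
  (LinearMap.mulLeft ℂ Φ).comp (LinearMap.mulRight ℂ Φ⁻¹)

/-- The space of the matrices `F` with `F N = N F` that lie in the sum of the generalised
eigenspaces of `F ↦ Φ F Φ⁻¹` for the eigenvalues `q, q ^ 2, q ^ 3, …`. -/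
noncomputable def tateSpace {b : ℕ} (q : ℝ) (Φ N : Matrix (Fin b) (Fin b) ℂ) :
    Submodule ℂ (Matrix (Fin b) (Fin b) ℂ) :=
  LinearMap.ker (LinearMap.mulRight ℂ N - LinearMap.mulLeft ℂ N) ⊓
    ⨆ j : ℕ, (adj Φ).maxGenEigenspace ((q : ℂ) ^ (j + 1))

end Pool.Agent.WM66
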