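import Pool.Agent.WM77.Defs

/-!
Eigenvalues in the window `1 ≤ |z| < q`.
-/

namespace Pool.Agent.WM66

open Classical in
/-- The number of the eigenvalues `z` of the matrix `A` (roots of the characteristic polynomial,
with multiplicity) with `1 ≤ |z| < q`. -/
noncomputable def window {κ : Type} [Fintype κ] [DecidableEq κ] (q : ℝ) (A : Matrix κ κ ℂ) : ℕ :=
  A.charpoly.roots.countP fun z => 1 ≤ ‖z‖ ∧ ‖z‖ < q

end Pool.Agent.WM66
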