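import Pool.Agent.WM66.Psi
import Pool.Agent.WM66.DefsH

/-!
Homomorphisms between strings.
-/

namespace Pool.Agent.WM66

open Module Matrix Pool.Agent.WM77 Finset

section
variable {κ : Type} [Fintype κ] [DecidableEq κ]

namespace StrData

variable {q : ℝ} {Φ N : Matrix κ κ ℂ} (D : StrData q Φ N)

/-- matrices are determined by their action on the `w t j` -/
theorem ext_mat (X Y : Matrix κ κ ℂ) (h : ∀ t j, X *ᵥ D.w t j = Y *ᵥ D.w t j) : X = Y := by
  have h2 : Matrix.toLin' X = Matrix.toLin' Y := by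
    apply D.B.ext
    rintro ⟨t, j⟩
    rw [← D.w_lt, Matrix.toLin'_apply, Matrix.toLin'_apply]
    exact h t j
  exact Matrix.toLin'.injective h2

/-- the map that sends `w s j` to `w t (j + k)` and the other strings to `0` -/
noncomputable def hom (s t : D.T) (k : ℕ) : Matrix κ κ ℂ :=
  LinearMap.toMatrix' (D.B.constr ℂ fun x => if x.1 = s then D.w t ((x.2 : ℕ) + k) else 0)

theorem hom_w (s t : D.T) (k : ℕ) (hk : D.a t ≤ D.a s + k) (s' : D.T) (i : ℕ) :
    D.hom s t k *ᵥ D.w s' i = if s' = s then D.w t (i + k) else 0 := by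
  rw [hom, LinearMap.toMatrix'_mulVec]
  by_cases hi : i < D.a s'
  · rw [show D.w s' i = D.B ⟨s', ⟨i, hi⟩⟩ from D.w_lt s' ⟨i, hi⟩, Basis.constr_basis]
  · rw [D.w_big s' i (by omega), map_zero]
    by_cases h : s' = s
    · subst h
      rw [if_pos rfl, D.w_big t _ (by omega)]
    · rw [if_neg h]

theorem hom_N (s t : D.T) (k : ℕ) (hk : D.a t ≤ D.a s + k) :
    D.hom s t k * N = N * D.hom s t k := by
  apply D.ext_mat
  intro s' i
  rw [← Matrix.mulVec_mulVec, ← Matrix.mulVec_mulVec, D.N_w, D.hom_w _ _ _ hk, D.hom_w _ _ _ hk]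
  by_cases h : s' = s
  · rw [if_pos h, if_pos h, D.N_w]
    congr 1
    omega
  · rw [if_neg h, if_neg h, Matrix.mulVec_zero]

theorem hom_P (s t : D.T) (k : ℕ) (hk : D.a t ≤ D.a s + k) (ρ : ℂ)
    (hρ : D.β t * (q : ℂ)⁻¹ ^ k = ρ * D.β s) :
    D.P * D.hom s t k = ρ • (D.hom s t k * D.P) := by
  apply D.ext_mat
  intro s' i
  rw [← Matrix.mulVec_mulVec, Matrix.smul_mulVec, ← Matrix.mulVec_mulVec, D.P_w,
    Matrix.mulVec_smul, D.hom_w _ _ _ hk]
  by_cases h : s' = s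
  · subst h
    rw [if_pos rfl, D.P_w, smul_smul]
    congr 1
    rw [pow_add, mul_comm ((q : ℂ)⁻¹ ^ i), ← mul_assoc, hρ]
    ring
  · rw [if_neg h, Matrix.mulVec_zero, smul_zero, smul_zero]

theorem hom_L (s t : D.T) (k : ℕ) (hk : D.a t ≤ D.a s + k) (s' t' : D.T) (k' : ℕ)
    (hk' : k' < D.a t') :
    D.L t' k' ⬝ᵥ (D.hom s t k *ᵥ D.w s' 0) = if s' = s ∧ t' = t ∧ k' = k then 1 else 0 := by
  rw [D.hom_w _ _ _ hk]
  by_cases h : s' = s
  · rw [if_pos h, zero_add, D.L_w _ _ _ _ hk']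
    simp [h]
  · rw [if_neg h, dotProduct_zero, if_neg]
    exact fun h' => h h'.1

theorem a_le' {ν : ℕ} (hν : N ^ ν = 0) (t : D.T) : D.a t ≤ ν := by
  by_contra h
  have h1 : D.w t ν = 0 := by
    rw [w, ← Matrix.toLin'_pow, hν, map_zero, LinearMap.zero_apply]
  have h2 : D.w t ν = D.B ⟨t, ⟨ν, by omega⟩⟩ := D.w_lt t ⟨ν, by omega⟩
  exact D.B.ne_zero _ (h2.symm.trans h1)

end StrData

end

section
variable {b : ℕ} {q : ℝ} {Φ N : Matrix (Fin b) (Fin b) ℂ}

theorem adj_apply (F : Matrix (Fin b) (Fin b) ℂ) : adj Φ F = Φ * (F * Φ⁻¹) := rfl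

/-- a semisimple eigenvector is a generalised eigenvector -/
theorem gen_of_P (hΦ : Φ.det ≠ 0) (P : Matrix (Fin b) (Fin b) ℂ) (hc : Commute Φ P)
    (hn : IsNilpotent (Φ - P)) (F : Matrix (Fin b) (Fin b) ℂ) (ρ : ℂ) (hF : P * F = ρ • (F * P)) :
    F ∈ (adj Φ).maxGenEigenspace ρ := by
  have hΦu : IsUnit Φ.det := isUnit_iff_ne_zero.mpr hΦ
  have hΦi : Φ * Φ⁻¹ = 1 := Matrix.mul_nonsing_inv _ hΦu
  have hΦi' : Φ⁻¹ * Φ = 1 := Matrix.nonsing_inv_mul _ hΦu
  set n := Φ - P with hn'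
  -- the operators
  let A : Module.End ℂ (Matrix (Fin b) (Fin b) ℂ) := LinearMap.mulLeft ℂ P - ρ • LinearMap.mulRight ℂ P
  let U : Module.End ℂ (Matrix (Fin b) (Fin b) ℂ) :=
    ρ • LinearMap.mulRight ℂ n - LinearMap.mulLeft ℂ n
  have cPn : Commute P n := by
    rw [hn']
    exact hc.symm.sub_right (Commute.refl _)
  have lr : ∀ X Y : Matrix (Fin b) (Fin b) ℂ,
      Commute (LinearMap.mulLeft ℂ X) (LinearMap.mulRight ℂ Y : Module.End ℂ _) := by
    intro X Y
    ext Z : 1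
    simp [Matrix.mul_assoc]
  have ll : ∀ X Y : Matrix (Fin b) (Fin b) ℂ, Commute X Y →
      Commute (LinearMap.mulLeft ℂ X) (LinearMap.mulLeft ℂ Y : Module.End ℂ _) := by
    intro X Y h
    ext Z : 1
    simp only [Module.End.mul_apply, LinearMap.mulLeft_apply, ← Matrix.mul_assoc, h.eq]
  have rr : ∀ X Y : Matrix (Fin b) (Fin b) ℂ, Commute X Y →
      Commute (LinearMap.mulRight ℂ X) (LinearMap.mulRight ℂ Y : Module.End ℂ _) := by
    intro X Y h
    ext Z : 1
    simp only [Module.End.mul_apply, LinearMap.mulRight_apply, Matrix.mul_assoc, h.eq]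
  have hAU : Commute A U := by
    apply Commute.sub_left
    · apply Commute.sub_right
      · exact (lr P n).smul_right ρ
      · exact ll P n cPn
    · apply Commute.smul_left
      apply Commute.sub_right
      · exact (rr P n cPn).smul_right ρ
      · exact (lr n P).symm
  have hU : IsNilpotent U := by
    obtain ⟨k, hk⟩ := hn
    have n1 : IsNilpotent (LinearMap.mulLeft ℂ n : Module.End ℂ _) := by
      refine ⟨k, ?_⟩
      rw [LinearMap.pow_mulLeft, hk]
      ext Z : 1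
      simp
    have n2 : IsNilpotent (ρ • LinearMap.mulRight ℂ n : Module.End ℂ _) := by
      refine ⟨k, ?_⟩
      rw [smul_pow, LinearMap.pow_mulRight, hk]
      ext Z : 1
      simp
    exact Commute.isNilpotent_sub ((lr n n).symm.smul_left ρ) n2 n1
  have hA : A F = 0 := by
    show P * F - ρ • (F * P) = 0
    rw [hF, sub_self]
  obtain ⟨k, hk⟩ := maxGen_sub A U hAU hU F ⟨1, by rw [pow_one, hA]⟩
  rw [Module.End.mem_maxGenEigenspace]
  refine ⟨k, ?_⟩
  have e1 : adj Φ - ρ • (1 : Module.End ℂ (Matrix (Fin b) (Fin b) ℂ))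
      = LinearMap.mulRight ℂ Φ⁻¹ * (A - U) := by
    ext Z : 1
    show Φ * (Z * Φ⁻¹) - ρ • Z = ((P * Z - ρ • (Z * P)) - (ρ • (Z * n) - n * Z)) * Φ⁻¹
    have e2 : (P * Z - ρ • (Z * P)) - (ρ • (Z * n) - n * Z) = Φ * Z - ρ • (Z * Φ) := by
      rw [hn', Matrix.mul_sub, Matrix.sub_mul, smul_sub]
      abel
    rw [e2, Matrix.sub_mul, Matrix.smul_mul, Matrix.mul_assoc Z, hΦi, Matrix.mul_one,
      Matrix.mul_assoc]
  have e2 : Commute (LinearMap.mulRight ℂ Φ⁻¹ : Module.End ℂ (Matrix (Fin b) (Fin b) ℂ))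
      (A - U) := by
    have e3 : A - U = LinearMap.mulLeft ℂ Φ - ρ • LinearMap.mulRight ℂ Φ := by
      ext Z : 1
      show (P * Z - ρ • (Z * P)) - (ρ • (Z * n) - n * Z) = Φ * Z - ρ • (Z * Φ)
      rw [hn', Matrix.mul_sub, Matrix.sub_mul, smul_sub]
      abel
    rw [e3]
    apply Commute.sub_right (lr Φ Φ⁻¹).symm
    apply Commute.smul_right
    apply rr
    rw [Commute, SemiconjBy, hΦi, hΦi']
  rw [e1, e2.mul_pow, Module.End.mul_apply, hk, map_zero]

/-- a nonzero generalised eigenvector that commutes with `N` gives an eigenvector -/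
theorem eig_of_gen (hΦ : Φ.det ≠ 0) (hc : N * Φ = (q : ℂ) • (Φ * N))
    (ρ : ℂ) (F : Matrix (Fin b) (Fin b) ℂ)
    (hF : F ∈ (adj Φ).maxGenEigenspace ρ) (hF0 : F ≠ 0) (hFN : F * N = N * F) :
    ∃ G : Matrix (Fin b) (Fin b) ℂ, G ≠ 0 ∧ G * N = N * G ∧ Φ * G = ρ • (G * Φ) := by
  classical
  have hΦu : IsUnit Φ.det := isUnit_iff_ne_zero.mpr hΦ
  have hΦi : Φ * Φ⁻¹ = 1 := Matrix.mul_nonsing_inv _ hΦu
  have hΦi' : Φ⁻¹ * Φ = 1 := Matrix.nonsing_inv_mul _ hΦu
  have hinv : Φ⁻¹ * N = (q : ℂ) • (N * Φ⁻¹) := by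
    calc Φ⁻¹ * N = Φ⁻¹ * (N * Φ) * Φ⁻¹ := by
          rw [Matrix.mul_assoc, Matrix.mul_assoc, hΦi, Matrix.mul_one]
      _ = (q : ℂ) • (N * Φ⁻¹) := by
          rw [hc, Matrix.mul_smul, Matrix.smul_mul, ← Matrix.mul_assoc Φ⁻¹, hΦi', Matrix.one_mul]
  let A : Module.End ℂ (Matrix (Fin b) (Fin b) ℂ) := adj Φ - ρ • 1
  have hstab : ∀ X : Matrix (Fin b) (Fin b) ℂ, X * N = N * X →
      A X * N = N * A X := by
    intro X hX
    show (Φ * (X * Φ⁻¹) - ρ • X) * N = N * (Φ * (X * Φ⁻¹) - ρ • X)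
    have h1 : Φ * (X * Φ⁻¹) * N = N * (Φ * (X * Φ⁻¹)) := by
      calc Φ * (X * Φ⁻¹) * N = Φ * (X * (Φ⁻¹ * N)) := by simp only [Matrix.mul_assoc]
        _ = (q : ℂ) • (Φ * ((X * N) * Φ⁻¹)) := by
            rw [hinv]
            simp only [Matrix.mul_smul, Matrix.mul_assoc]
        _ = ((q : ℂ) • (Φ * N)) * (X * Φ⁻¹) := by
            rw [hX]
            simp only [Matrix.smul_mul, Matrix.mul_assoc]
        _ = N * (Φ * (X * Φ⁻¹)) := by rw [← hc]; simp only [Matrix.mul_assoc]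
    rw [Matrix.sub_mul, Matrix.mul_sub, h1, Matrix.smul_mul, Matrix.mul_smul, hX]
  rw [Module.End.mem_maxGenEigenspace] at hF
  have hex : ∃ k, (A ^ k) F = 0 := hF
  have hk := Nat.find_spec hex
  set k := Nat.find hex with hkdef
  have hk0 : k ≠ 0 := by
    intro h
    rw [h, pow_zero, Module.End.one_apply] at hk
    exact hF0 hk
  obtain ⟨m, hm⟩ := Nat.exists_eq_succ_of_ne_zero hk0
  have hcomm : ∀ i : ℕ, (A ^ i) F * N
      = N * (A ^ i) F := by
    intro i
    induction i with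
    | zero => exact hFN
    | succ i ih =>
      rw [pow_succ', Module.End.mul_apply]
      exact hstab _ ih
  refine ⟨(A ^ m) F, ?_, hcomm m, ?_⟩
  · exact Nat.find_min hex (by omega)
  · rw [hm, pow_succ', Module.End.mul_apply] at hk
    set G := (A ^ m) F with hG
    have h1 : Φ * (G * Φ⁻¹) - ρ • G = 0 := hk
    have h2 : Φ * (G * Φ⁻¹) = ρ • G := sub_eq_zero.mp h1
    calc Φ * G = Φ * (G * Φ⁻¹) * Φ := by
          simp only [Matrix.mul_assoc, hΦi', Matrix.mul_one]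
      _ = ρ • (G * Φ) := by rw [h2, Matrix.smul_mul]

/-- in the pure case there is nothing of positive weight -/
theorem pure_hom (hq : 1 < q) (D : StrData q Φ N) (hpur : ∀ t, Pur q D.a D.β t)
    (hΦ : Φ.det ≠ 0) (ρ : ℂ) (hρ : 1 < ‖ρ‖) (F : Matrix (Fin b) (Fin b) ℂ)
    (hFN : F * N = N * F) (hF : Φ * F = ρ • (F * Φ)) : F = 0 := by
  have hq0 : 0 < q := by linarith
  have hΦu : IsUnit Φ.det := isUnit_iff_ne_zero.mpr hΦ
  obtain ⟨M, hM⟩ := D.P_nil
  have hFNk : ∀ k : ℕ, F * N ^ k = N ^ k * F := by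
    intro k
    exact (Commute.pow_right (show Commute F N from hFN) k).eq
  have hwN : ∀ t (i j : ℕ), N ^ i *ᵥ D.w t j = D.w t (j + i) := by
    intro t i
    induction i with
    | zero => intro j; simp
    | succ i ih =>
      intro j
      rw [pow_succ, ← Matrix.mulVec_mulVec, D.N_w, ih]
      congr 1
      omega
  have hLN : ∀ s (i j : ℕ), j + i < D.a s → D.L s (j + i) ᵥ* N ^ i = D.L s j := by
    intro s i
    induction i with
    | zero => intro j _; simp
    | succ i ih =>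
      intro j hj
      rw [pow_succ', ← Matrix.vecMul_vecMul, show j + (i + 1) = (j + i) + 1 by omega,
        D.L_N_succ s (j + i) (by omega)]
      exact ih j (by omega)
  have hv : ∀ t, F *ᵥ D.w t 0 = 0 := by
    intro t
    -- generalised eigenvector
    have hgen : ((Φ - (ρ * D.β t) • (1 : Matrix (Fin b) (Fin b) ℂ)) ^ M) *ᵥ (F *ᵥ D.w t 0) = 0 := by
      have h1 : ((Φ - D.β t • (1 : Matrix (Fin b) (Fin b) ℂ)) ^ M) *ᵥ D.w t 0 = 0 := by
        apply mulVec_gen _ _ D.P_comm M hM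
        have := D.P_w t 0
        rwa [pow_zero, mul_one] at this
      have h2 : ∀ k : ℕ, (Φ - (ρ * D.β t) • (1 : Matrix (Fin b) (Fin b) ℂ)) ^ k * F
          = ρ ^ k • (F * (Φ - D.β t • (1 : Matrix (Fin b) (Fin b) ℂ)) ^ k) := by
        intro k
        induction k with
        | zero => simp
        | succ k ih =>
          have h3 : (Φ - (ρ * D.β t) • (1 : Matrix (Fin b) (Fin b) ℂ)) * F
              = ρ • (F * (Φ - D.β t • (1 : Matrix (Fin b) (Fin b) ℂ))) := by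
            rw [Matrix.sub_mul, Matrix.mul_sub, hF, Matrix.smul_mul, Matrix.mul_smul,
              Matrix.one_mul, Matrix.mul_one, smul_sub, smul_smul]
          rw [pow_succ, Matrix.mul_assoc, h3, Matrix.mul_smul, ← Matrix.mul_assoc, ih,
            Matrix.smul_mul, smul_smul, Matrix.mul_assoc, ← pow_succ, ← pow_succ']
      rw [Matrix.mulVec_mulVec, h2, Matrix.smul_mulVec, ← Matrix.mulVec_mulVec, h1,
        Matrix.mulVec_zero, smul_zero]
    have hz : ∀ s (j : ℕ), j < D.a s → D.L s j ⬝ᵥ (F *ᵥ D.w t 0) = 0 := by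
      intro s j hj
      by_cases hja : j + D.a t < D.a s
      · rw [← hLN s (D.a t) j hja, ← Matrix.dotProduct_mulVec, Matrix.mulVec_mulVec, ← hFNk,
          ← Matrix.mulVec_mulVec, hwN, zero_add, D.w_big t _ le_rfl, Matrix.mulVec_zero,
          dotProduct_zero]
      · apply dot_zero_of_ne Φ _ _ (D.β s * (q : ℂ)⁻¹ ^ j) (ρ * D.β t) _ M M _ hgen
        · intro h
          have h1 := congrArg norm h
          have e1 := (pur_iff hq _ _ _ (D.ha s)).mp (hpur s)
          have e2 := (pur_iff hq _ _ _ (D.ha t)).mp (hpur t)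
          rw [norm_mul, norm_pow, norm_inv, Complex.norm_real, Real.norm_eq_abs, abs_of_pos hq0,
            norm_mul] at h1
          have h2 := congrArg (fun x : ℝ => x ^ 2) h1
          simp only [mul_pow] at h2
          rw [e1, e2, ← pow_mul, inv_pow] at h2
          have h3 : q ^ (D.a t - 1) < ‖ρ‖ ^ 2 * q ^ (D.a t - 1) := by
            have : 1 < ‖ρ‖ ^ 2 := one_lt_pow₀ hρ (by norm_num)
            nlinarith [pow_pos hq0 (D.a t - 1)]
          rw [← h2, ← div_eq_mul_inv, lt_div_iff₀ (pow_pos hq0 _), ← pow_add] at h3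
          have h4 := (pow_lt_pow_iff_right₀ hq).mp h3
          have := D.ha t
          omega
        · exact vecMul_gen _ _ D.P_comm M hM _ _ (D.L_P s j hj)
    have h0 : D.B.repr (F *ᵥ D.w t 0) = 0 := by
      ext ⟨s, j⟩
      rw [← D.L_dot s j j.2, hz s j j.2]
      rfl
    exact (LinearEquiv.map_eq_zero_iff _).mp h0
  apply D.ext_mat
  intro t j
  have h1 : D.w t j = N ^ j *ᵥ D.w t 0 := by rw [hwN, zero_add]
  rw [h1, Matrix.mulVec_mulVec, hFNk, ← Matrix.mulVec_mulVec, hv, Matrix.mulVec_zero,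
    Matrix.zero_mulVec]

end

end Pool.Agent.WM66
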