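import Pool.Agent.WM66.Partner

/-!
The number of impure strings and the space of endomorphisms of positive Tate weight.
-/

namespace Pool.Agent.WM66

open Module Matrix Pool.Agent.WM77 Finset

section
variable {b : ℕ} {q : ℝ} {Φ N : Matrix (Fin b) (Fin b) ℂ}

theorem hom_mem (hq : 1 < q) (hΦ : Φ.det ≠ 0) (D : StrData q Φ N) (s t : D.T) (h : D.Rel s t) :
    D.hom s t (D.a t - D.a s) ∈ tateSpace q Φ N ∧
      ∃ j : ℕ, 1 ≤ j ∧ D.hom s t (D.a t - D.a s) ∈ (adj Φ).maxGenEigenspace ((q : ℂ) ^ j) := by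
  have hq0 : 0 < q := by linarith
  have hqc : (q : ℂ) ≠ 0 := by exact_mod_cast hq0.ne'
  obtain ⟨j, hj1, hj⟩ := h
  have hk : D.a t ≤ D.a s + (D.a t - D.a s) := by omega
  have hρ : D.β t * (q : ℂ)⁻¹ ^ (D.a t - D.a s) = (q : ℂ) ^ j * D.β s := by
    rw [hj, pow_add, mul_comm, ← mul_assoc, ← mul_assoc, mul_comm ((q : ℂ)⁻¹ ^ _), mul_assoc
      ((q : ℂ) ^ j), ← mul_pow, inv_mul_cancel₀ hqc, one_pow, mul_one]
  have h1 := D.hom_P s t _ hk _ hρ
  have h2 := gen_of_P hΦ D.P D.P_comm D.P_nil _ _ h1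
  refine ⟨?_, j, hj1, h2⟩
  rw [tateSpace, Submodule.mem_inf]
  constructor
  · rw [LinearMap.mem_ker]
    show D.hom s t (D.a t - D.a s) * N - N * D.hom s t (D.a t - D.a s) = 0
    rw [D.hom_N s t _ hk, sub_self]
  · have h3 : (adj Φ).maxGenEigenspace ((q : ℂ) ^ ((j - 1) + 1))
        ≤ ⨆ j : ℕ, (adj Φ).maxGenEigenspace ((q : ℂ) ^ (j + 1)) :=
      le_iSup (fun j : ℕ => (adj Φ).maxGenEigenspace ((q : ℂ) ^ (j + 1))) (j - 1)
    apply h3
    rwa [Nat.sub_add_cancel hj1]

open Classical in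
theorem card_rel (hq : 1 < q) (hΦ : Φ.det ≠ 0) (D : StrData q Φ N) :
    (univ.filter fun p : D.T × D.T => D.Rel p.1 p.2).card ≤ finrank ℂ (tateSpace q Φ N) := by
  set R := univ.filter fun p : D.T × D.T => D.Rel p.1 p.2 with hR
  have hmem : ∀ p : R, D.hom p.1.1 p.1.2 (D.a p.1.2 - D.a p.1.1) ∈ tateSpace q Φ N := by
    rintro ⟨p, hp⟩
    rw [hR, mem_filter] at hp
    exact (hom_mem hq hΦ D _ _ hp.2).1
  let f : (R → ℂ) →ₗ[ℂ] tateSpace q Φ N :=
    Fintype.linearCombination ℂ (fun p : R =>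
      (⟨D.hom p.1.1 p.1.2 (D.a p.1.2 - D.a p.1.1), hmem p⟩ : tateSpace q Φ N))
  have hfa : ∀ g : R → ℂ, ((f g : tateSpace q Φ N) : Matrix (Fin b) (Fin b) ℂ)
      = ∑ p : R, g p • D.hom p.1.1 p.1.2 (D.a p.1.2 - D.a p.1.1) := by
    intro g
    rw [Fintype.linearCombination_apply, Submodule.coe_sum]
    rfl
  have hf : Function.Injective f := by
    rw [← LinearMap.ker_eq_bot, LinearMap.ker_eq_bot']
    intro g hg
    funext p
    have h1 : (∑ p : R, g p • D.hom p.1.1 p.1.2 (D.a p.1.2 - D.a p.1.1)) = 0 := by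
      rw [← hfa, hg]
      rfl
    have hk' : D.a p.1.2 - D.a p.1.1 < D.a p.1.2 := by
      have := D.ha p.1.2
      have := D.ha p.1.1
      omega
    have h2 := congrArg (fun X : Matrix (Fin b) (Fin b) ℂ =>
      D.L p.1.2 (D.a p.1.2 - D.a p.1.1) ⬝ᵥ (X *ᵥ D.w p.1.1 0)) h1
    simp only [Matrix.zero_mulVec, dotProduct_zero, Matrix.sum_mulVec, dotProduct_sum,
      Matrix.smul_mulVec, dotProduct_smul, smul_eq_mul] at h2
    rw [Finset.sum_eq_single p] at h2
    · rw [D.hom_L _ _ _ (by omega) _ _ _ hk', if_pos ⟨rfl, rfl, rfl⟩, mul_one] at h2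
      exact h2
    · intro p' _ hp
      rw [D.hom_L _ _ _ (by omega) _ _ _ hk', if_neg, mul_zero]
      rintro ⟨e1, e2, _⟩
      apply hp
      apply Subtype.ext
      exact Prod.ext e1.symm e2.symm
    · intro h
      exact absurd (mem_univ _) h
  have h2 := LinearMap.finrank_le_finrank_of_injective hf
  rw [Module.finrank_fintype_fun_eq_card, Fintype.card_coe] at h2
  exact h2

end

open Classical in
theorem hom_test {b ν : ℕ} (q : ℝ) (hq : 1 < q) (Φ N : Matrix (Fin b) (Fin b) ℂ)
    (hΦ : Φ.det ≠ 0) (hN : N ^ ν = 0) (hc : N * Φ = (q : ℂ) • (Φ * N))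
    (hw : ∀ α ∈ Φ.charpoly.roots, ∃ k : ℤ, ‖α‖ ^ 2 = q ^ k)
    (hs : ∀ α, Φ.charpoly.rootMultiplicity α
      = Φ.charpoly.rootMultiplicity ((starRingEnd ℂ) α)⁻¹) :
    ∃ r : ℕ, PureCount q Φ N r ∧
      (r = b ↔ ∀ (j : ℕ) (F : Matrix (Fin b) (Fin b) ℂ), 1 ≤ j → F * N = N * F →
        Φ * F = (q : ℂ) ^ j • (F * Φ) → F = 0) ∧
      b ≤ r + 2 * ν * finrank ℂ (tateSpace q Φ N) := by
  have hq0 : 0 < q := by linarith
  have hNn : IsNilpotent N := ⟨ν, hN⟩
  obtain ⟨D⟩ := exists_strData q hq Φ N hΦ hNn hc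
  set r := ∑ t, (if Pur q D.a D.β t then D.a t else 0) with hr
  have hPC : PureCount q Φ N r := D.pureCount hq
  have hcount := D.count_eq_card hq hPC
  rw [Fintype.card_fin] at hcount
  have hbs : b = ∑ t, D.a t := by
    have := D.card_sum
    rwa [Fintype.card_fin] at this
  refine ⟨r, hPC, ?_, ?_⟩
  · constructor
    · intro hrb j F hj hFN hF
      apply pure_hom hq D (hcount.mp hrb) hΦ _ _ F hFN hF
      rw [norm_pow, Complex.norm_real, Real.norm_eq_abs, abs_of_pos hq0]
      exact one_lt_pow₀ hq (by omega)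
    · intro h
      rw [hcount]
      intro s
      by_contra himp
      obtain ⟨t, ht⟩ := D.exists_partner hq hw hs s himp
      have key : ∀ s t, ¬ D.Rel s t := by
        intro s t hst
        obtain ⟨_, j, hj, hgen⟩ := hom_mem hq hΦ D s t hst
        have hk : D.a t ≤ D.a s + (D.a t - D.a s) := by omega
        have hk' : D.a t - D.a s < D.a t := by
          have := D.ha t
          have := D.ha s
          omega
        have hne : D.hom s t (D.a t - D.a s) ≠ 0 := by
          intro h0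
          have h1 := D.hom_L s t _ hk s t _ hk'
          rw [h0, Matrix.zero_mulVec, dotProduct_zero, if_pos ⟨rfl, rfl, rfl⟩] at h1
          exact zero_ne_one h1
        obtain ⟨G, hG0, hGN, hG⟩ := eig_of_gen hΦ hc _ _ hgen hne (D.hom_N s t _ hk)
        exact hG0 (h j G hj hGN hG)
      rcases ht with ht | ht
      · exact key _ _ ht
      · exact key _ _ ht
  · have hle := card_rel hq hΦ D
    set R := univ.filter fun p : D.T × D.T => D.Rel p.1 p.2 with hR
    set I := univ.filter fun t => ¬ Pur q D.a D.β t with hI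
    have h1 : I ⊆ R.image Prod.fst ∪ R.image Prod.snd := by
      intro s hsI
      rw [hI, mem_filter] at hsI
      obtain ⟨t, ht⟩ := D.exists_partner hq hw hs s hsI.2
      rw [mem_union, mem_image, mem_image]
      rcases ht with ht | ht
      · right
        exact ⟨(t, s), by rw [hR, mem_filter]; exact ⟨mem_univ _, ht⟩, rfl⟩
      · left
        exact ⟨(s, t), by rw [hR, mem_filter]; exact ⟨mem_univ _, ht⟩, rfl⟩
    have h2 : I.card ≤ 2 * R.card := by
      calc I.card ≤ (R.image Prod.fst ∪ R.image Prod.snd).card := Finset.card_le_card h1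
        _ ≤ (R.image Prod.fst).card + (R.image Prod.snd).card := Finset.card_union_le _ _
        _ ≤ R.card + R.card := Nat.add_le_add Finset.card_image_le Finset.card_image_le
        _ = 2 * R.card := by ring
    have g1 : ∀ t ∈ (univ : Finset D.T), D.a t ≤ (if Pur q D.a D.β t then D.a t else 0)
        + ν * (if t ∈ I then 1 else 0) := by
      intro t _
      have g2 := D.a_le' hN t
      by_cases hP : Pur q D.a D.β t
      · rw [if_pos hP]
        exact Nat.le_add_right _ _
      · have : t ∈ I := by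
          rw [hI, mem_filter]
          exact ⟨mem_univ _, hP⟩
        rw [if_neg hP, if_pos this]
        omega
    have hb1 : b ≤ r + ν * I.card := by
      calc b = ∑ t, D.a t := hbs
        _ ≤ ∑ t, ((if Pur q D.a D.β t then D.a t else 0) + ν * (if t ∈ I then 1 else 0)) :=
            Finset.sum_le_sum g1
        _ = r + ν * I.card := by
            rw [Finset.sum_add_distrib, ← Finset.mul_sum]
            have e1 : (∑ t, if t ∈ I then 1 else 0) = I.card := by simp
            rw [e1]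
    calc b ≤ r + ν * I.card := hb1
      _ ≤ r + ν * (2 * finrank ℂ (tateSpace q Φ N)) := by
          apply Nat.add_le_add_left
          apply Nat.mul_le_mul_left
          omega
      _ = r + 2 * ν * finrank ℂ (tateSpace q Φ N) := by ring

end Pool.Agent.WM66
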