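import Pool.Agent.WM66.Hom

/-!
Every impure string has a partner.
-/

namespace Pool.Agent.WM66

open Module Matrix Pool.Agent.WM77 Finset

section
variable {κ : Type} [Fintype κ] [DecidableEq κ]

namespace StrData

variable {q : ℝ} {Φ N : Matrix κ κ ℂ} (D : StrData q Φ N)

/-- there is a homomorphism of positive weight from the string `s` to the string `t` -/
def Rel (s t : D.T) : Prop :=
  ∃ j : ℕ, 1 ≤ j ∧ D.β t = (q : ℂ) ^ (j + (D.a t - D.a s)) * D.β s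

open Classical in
/-- the strings that contain `α` -/
noncomputable def Con (α : ℂ) : Finset D.T :=
  univ.filter fun t => ∃ j : Fin (D.a t), D.β t * (q : ℂ)⁻¹ ^ (j : ℕ) = α

theorem mem_Con (α : ℂ) (t : D.T) :
    t ∈ D.Con α ↔ ∃ j : Fin (D.a t), D.β t * (q : ℂ)⁻¹ ^ (j : ℕ) = α := by
  classical
  rw [Con, mem_filter]
  exact ⟨fun h => h.2, fun h => ⟨mem_univ _, h⟩⟩

theorem pow_inj_q (hq : 1 < q) {m n : ℕ} (h : (q : ℂ) ^ m = (q : ℂ) ^ n) : m = n := by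
  have h1 : q ^ m = q ^ n := by exact_mod_cast h
  exact (pow_right_injective₀ (by linarith) hq.ne') h1

theorem mult_eq (hq : 1 < q) (α : ℂ) : Φ.charpoly.rootMultiplicity α = (D.Con α).card := by
  classical
  have hqc : (q : ℂ) ≠ 0 := by
    have : q ≠ 0 := by linarith
    exact_mod_cast this
  rw [← Polynomial.count_roots, D.roots, Multiset.count_map]
  have h2 : (Multiset.filter (fun x : (Σ t, Fin (D.a t)) => α = aS (q : ℂ) D.a D.β x)
      univ.val).card = (univ.filter fun x : (Σ t, Fin (D.a t)) => α = aS (q : ℂ) D.a D.β x).card :=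
    rfl
  refine h2.trans ?_
  refine Finset.card_bij (fun x _ => x.1) ?_ ?_ ?_
  · rintro ⟨t, j⟩ hx
    rw [mem_filter] at hx
    rw [D.mem_Con]
    exact ⟨j, hx.2.symm⟩
  · rintro ⟨t, j⟩ hx ⟨t', j'⟩ hx' htt
    simp only at htt
    subst htt
    rw [mem_filter] at hx hx'
    have h3 := hx.2.symm.trans hx'.2
    simp only [aS] at h3
    have h4 := mul_left_cancel₀ (D.hβ t) h3
    rw [inv_pow, inv_pow, _root_.inv_inj] at h4
    have h6 : j = j' := Fin.ext (pow_inj_q hq h4)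
    rw [h6]
  · intro t ht
    rw [D.mem_Con] at ht
    obtain ⟨j, hj⟩ := ht
    refine ⟨⟨t, j⟩, ?_, rfl⟩
    rw [mem_filter]
    exact ⟨mem_univ _, hj.symm⟩

theorem exists_diff {α α' : ℂ} (h : (D.Con α).card = (D.Con α').card) (s : D.T)
    (h1 : s ∈ D.Con α) (h2 : s ∉ D.Con α') : ∃ t, t ∈ D.Con α' ∧ t ∉ D.Con α := by
  classical
  by_contra hcon
  push Not at hcon
  have h3 : D.Con α' ⊆ D.Con α := fun t ht => hcon t ht
  have h4 := Finset.eq_of_subset_of_card_le h3 h.le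
  exact h2 (h4 ▸ h1)

theorem exists_partner (hq : 1 < q)
    (hw : ∀ α ∈ Φ.charpoly.roots, ∃ k : ℤ, ‖α‖ ^ 2 = q ^ k)
    (hs : ∀ α, Φ.charpoly.rootMultiplicity α
      = Φ.charpoly.rootMultiplicity ((starRingEnd ℂ) α)⁻¹)
    (s : D.T) (himp : ¬ Pur q D.a D.β s) : ∃ t, D.Rel t s ∨ D.Rel s t := by
  have hq0 : 0 < q := by linarith
  have hqc : (q : ℂ) ≠ 0 := by exact_mod_cast hq0.ne'
  have ha := D.ha s
  have hβ := D.hβ s
  have hcon : ∀ α, (D.Con α).card = (D.Con ((starRingEnd ℂ) α)⁻¹).card := by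
    intro α
    rw [← D.mult_eq hq, ← D.mult_eq hq]
    exact hs α
  obtain ⟨m, hm⟩ : ∃ k : ℤ, ‖D.β s‖ ^ 2 = q ^ k := by
    apply hw
    rw [D.roots, Multiset.mem_map]
    refine ⟨⟨s, ⟨0, ha⟩⟩, mem_univ_val _, ?_⟩
    simp [aS]
  have hconj : ((starRingEnd ℂ) (D.β s))⁻¹ = D.β s * ((q : ℂ) ^ m)⁻¹ := by
    have h1 : D.β s * (starRingEnd ℂ) (D.β s) = (q : ℂ) ^ m := by
      rw [Complex.mul_conj, Complex.normSq_eq_norm_sq, hm]
      push_cast
      rfl
    have h2 : (starRingEnd ℂ) (D.β s) ≠ 0 := by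
      intro h
      rw [map_eq_zero] at h
      exact hβ h
    rw [← h1, mul_inv, ← mul_assoc, mul_inv_cancel₀ hβ, one_mul]
  have hmne : m ≠ ((D.a s - 1 : ℕ) : ℤ) := by
    intro h
    apply himp
    rw [pur_iff hq _ _ _ ha, hm, h, zpow_natCast]
  rcases lt_or_gt_of_ne hmne with hlt | hgt
  · -- the central value is negative
    set d : ℕ := (((D.a s - 1 : ℕ) : ℤ) - m).toNat with hd
    have hd1 : (d : ℤ) = ((D.a s - 1 : ℕ) : ℤ) - m := by
      rw [hd]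
      exact Int.toNat_of_nonneg (by omega)
    have hd0 : 1 ≤ d := by omega
    set γ : ℂ := D.β s * (q : ℂ)⁻¹ ^ (D.a s - 1) with hγ
    have hγ' : ((starRingEnd ℂ) γ)⁻¹ = D.β s * (q : ℂ) ^ d := by
      rw [hγ, map_mul, mul_inv, hconj, map_pow, map_inv₀, Complex.conj_ofReal, inv_pow, inv_inv,
        mul_assoc]
      congr 1
      rw [← zpow_natCast (q : ℂ) d, hd1, ← zpow_natCast (q : ℂ) (D.a s - 1), ← _root_.zpow_neg,
        ← zpow_add₀ hqc]
      congr 1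
      ring
    have h1 : s ∈ D.Con γ := by
      rw [D.mem_Con]
      exact ⟨⟨D.a s - 1, by omega⟩, rfl⟩
    have h2 : s ∉ D.Con (D.β s * (q : ℂ) ^ d) := by
      rw [D.mem_Con]
      rintro ⟨j, hj⟩
      have h3 := mul_left_cancel₀ hβ hj
      rw [inv_pow, inv_eq_iff_eq_inv, eq_comm, inv_eq_iff_eq_inv] at h3
      have h4 : (q : ℂ) ^ d * (q : ℂ) ^ (j : ℕ) = 1 := by
        rw [h3, inv_mul_cancel₀ (pow_ne_zero _ hqc)]
      rw [← pow_add, ← pow_zero (q : ℂ)] at h4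
      have := pow_inj_q hq h4
      omega
    have h3 := hcon γ
    rw [hγ'] at h3
    obtain ⟨t, ht1, ht2⟩ := D.exists_diff h3 s h1 h2
    refine ⟨t, Or.inr ?_⟩
    rw [D.mem_Con] at ht1 ht2
    obtain ⟨j, hj⟩ := ht1
    have hβt : D.β t = (q : ℂ) ^ (d + (j : ℕ)) * D.β s := by
      have : D.β t = D.β t * (q : ℂ)⁻¹ ^ (j : ℕ) * (q : ℂ) ^ (j : ℕ) := by
        rw [mul_assoc, ← mul_pow, inv_mul_cancel₀ hqc, one_pow, mul_one]
      rw [this, hj, pow_add]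
      ring
    have hlen : D.a t ≤ d + (j : ℕ) + (D.a s - 1) := by
      by_contra hc
      apply ht2
      refine ⟨⟨d + (j : ℕ) + (D.a s - 1), by omega⟩, ?_⟩
      simp only
      rw [hβt, hγ, pow_add _ (d + (j : ℕ)), mul_comm ((q : ℂ) ^ (d + (j : ℕ))), mul_assoc,
        ← mul_assoc ((q : ℂ) ^ (d + (j : ℕ))), ← mul_pow, mul_inv_cancel₀ hqc, one_pow, one_mul]
    refine ⟨d + (j : ℕ) - (D.a t - D.a s), by omega, ?_⟩
    rw [hβt]
    congr 2
    omega
  · -- the central value is positive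
    obtain ⟨n, rfl⟩ : ∃ n : ℕ, m = (n : ℤ) := ⟨m.toNat, (Int.toNat_of_nonneg (by omega)).symm⟩
    rw [zpow_natCast] at hconj
    have hn : D.a s ≤ n := by omega
    have h1 : s ∈ D.Con (D.β s) := by
      rw [D.mem_Con]
      exact ⟨⟨0, ha⟩, by simp⟩
    have h2 : s ∉ D.Con (D.β s * ((q : ℂ) ^ n)⁻¹) := by
      rw [D.mem_Con]
      rintro ⟨j, hj⟩
      have h3 := mul_left_cancel₀ hβ hj
      rw [inv_pow, _root_.inv_inj] at h3
      have h4 := pow_inj_q hq h3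
      have := j.2
      omega
    have h3 := hcon (D.β s)
    rw [hconj] at h3
    obtain ⟨t, ht1, ht2⟩ := D.exists_diff h3 s h1 h2
    refine ⟨t, Or.inl ?_⟩
    rw [D.mem_Con] at ht1 ht2
    obtain ⟨j, hj⟩ := ht1
    have hβt : D.β t = D.β s * ((q : ℂ) ^ n)⁻¹ * (q : ℂ) ^ (j : ℕ) := by
      rw [← hj, mul_assoc, ← mul_pow, inv_mul_cancel₀ hqc, one_pow, mul_one]
    have hjn : (j : ℕ) < n := by
      by_contra hc
      apply ht2
      refine ⟨⟨(j : ℕ) - n, by have := j.2; omega⟩, ?_⟩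
      simp only
      obtain ⟨i, hi⟩ : ∃ i, (j : ℕ) = n + i := ⟨(j : ℕ) - n, by omega⟩
      rw [hβt, hi, pow_add, Nat.add_sub_cancel_left]
      have e1 : (q : ℂ) ^ n ≠ 0 := pow_ne_zero _ hqc
      have e2 : (q : ℂ) ^ i ≠ 0 := pow_ne_zero _ hqc
      rw [inv_pow]
      field_simp
    have hβs : D.β s = (q : ℂ) ^ (n - (j : ℕ)) * D.β t := by
      rw [hβt]
      have e1 : (q : ℂ) ^ n ≠ 0 := pow_ne_zero _ hqc
      have e2 : (q : ℂ) ^ n = (q : ℂ) ^ (n - (j : ℕ)) * (q : ℂ) ^ (j : ℕ) := by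
        rw [← pow_add]
        congr 1
        omega
      calc D.β s = D.β s * ((q : ℂ) ^ n)⁻¹ * (q : ℂ) ^ n := by
            rw [mul_assoc, inv_mul_cancel₀ e1, mul_one]
        _ = (q : ℂ) ^ (n - (j : ℕ)) * (D.β s * ((q : ℂ) ^ n)⁻¹ * (q : ℂ) ^ (j : ℕ)) := by
            conv_lhs => rw [show D.β s * ((q : ℂ) ^ n)⁻¹ * (q : ℂ) ^ n
              = D.β s * ((q : ℂ) ^ n)⁻¹ * ((q : ℂ) ^ (n - (j : ℕ)) * (q : ℂ) ^ (j : ℕ)) by
                rw [← e2]]
            ring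
    have hj2 := j.2
    refine ⟨n - (j : ℕ) - (D.a s - D.a t), by omega, ?_⟩
    conv_lhs => rw [hβs]
    congr 2
    omega

end StrData

end

end Pool.Agent.WM66
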