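import Pool.Agent.WM66.Window

/-!
The invariant functionals on the tensor square of a string.
-/

namespace Pool.Agent.WM66

open Module Matrix Pool.Agent.WM77 Finset Kronecker

section gen
variable {ι : Type} [Fintype ι] [DecidableEq ι]

theorem dot_zero_of_ne (A : Matrix ι ι ℂ) (ψ x : ι → ℂ) (c β : ℂ) (hcβ : c ≠ β) (M K : ℕ)
    (hψ : ψ ᵥ* (A - c • (1 : Matrix ι ι ℂ)) ^ M = 0)
    (hx : ((A - β • (1 : Matrix ι ι ℂ)) ^ K) *ᵥ x = 0) : ψ ⬝ᵥ x = 0 := by
  have h0 : IsCoprime (Polynomial.X - Polynomial.C c) (Polynomial.X - Polynomial.C β) :=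
    Polynomial.isCoprime_X_sub_C_of_isUnit_sub (sub_ne_zero.mpr hcβ).isUnit
  obtain ⟨u, w, huw⟩ := h0.pow (m := M) (n := K)
  have h1 : ∀ z : ℂ, Polynomial.aeval A (Polynomial.X - Polynomial.C z)
      = A - z • (1 : Matrix ι ι ℂ) := by
    intro z
    rw [map_sub, Polynomial.aeval_X, Polynomial.aeval_C, Algebra.algebraMap_eq_smul_one]
  have h2 := congrArg (Polynomial.aeval A) huw
  rw [map_add, mul_comm u, map_mul, map_mul, map_pow, map_pow, h1, h1, map_one] at h2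
  have h3 : x = (A - c • (1 : Matrix ι ι ℂ)) ^ M *ᵥ (Polynomial.aeval A u *ᵥ x) := by
    conv_lhs => rw [← Matrix.one_mulVec x, ← h2, Matrix.add_mulVec, ← Matrix.mulVec_mulVec,
      ← Matrix.mulVec_mulVec, hx, Matrix.mulVec_zero, add_zero]
  rw [h3, Matrix.dotProduct_mulVec, hψ, zero_dotProduct]

theorem mulVec_gen (A C : Matrix ι ι ℂ) (hc : Commute A C) (K : ℕ) (hK : (A - C) ^ K = 0)
    (β : ℂ) (x : ι → ℂ) (hx : C *ᵥ x = β • x) :
    ((A - β • (1 : Matrix ι ι ℂ)) ^ K) *ᵥ x = 0 := by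
  have h1 : ∀ k : ℕ, ((A - β • (1 : Matrix ι ι ℂ)) ^ k) *ᵥ x = ((A - C) ^ k) *ᵥ x := by
    intro k
    induction k with
    | zero => simp
    | succ k ih =>
      have h2 : A - β • (1 : Matrix ι ι ℂ) = (A - C) + (C - β • (1 : Matrix ι ι ℂ)) := by abel
      have h3 : Commute ((A - C) ^ k) (C - β • (1 : Matrix ι ι ℂ)) := by
        apply Commute.pow_left
        apply Commute.sub_right (hc.sub_left (Commute.refl _))
        exact (Commute.one_right _).smul_right β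
      have h4 : (C - β • (1 : Matrix ι ι ℂ)) *ᵥ ((A - C) ^ k *ᵥ x) = 0 := by
        rw [Matrix.mulVec_mulVec, ← h3.eq, ← Matrix.mulVec_mulVec, Matrix.sub_mulVec, hx,
          Matrix.smul_mulVec, Matrix.one_mulVec, sub_self, Matrix.mulVec_zero]
      rw [pow_succ', ← Matrix.mulVec_mulVec, ih, h2, Matrix.add_mulVec, h4, add_zero, pow_succ',
        Matrix.mulVec_mulVec]
  rw [h1, hK, Matrix.zero_mulVec]

theorem vecMul_gen (A C : Matrix ι ι ℂ) (hc : Commute A C) (K : ℕ) (hK : (A - C) ^ K = 0)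
    (β : ℂ) (x : ι → ℂ) (hx : x ᵥ* C = β • x) :
    x ᵥ* ((A - β • (1 : Matrix ι ι ℂ)) ^ K) = 0 := by
  have h1 : ((Aᵀ - β • (1 : Matrix ι ι ℂ)) ^ K) *ᵥ x = 0 := by
    apply mulVec_gen Aᵀ Cᵀ _ K _ β x
    · rw [Matrix.mulVec_transpose, hx]
    · rw [Commute, SemiconjBy, ← Matrix.transpose_mul, ← Matrix.transpose_mul, hc.eq]
    · rw [← Matrix.transpose_sub, ← Matrix.transpose_pow, hK, Matrix.transpose_zero]
  have h2 : (Aᵀ - β • (1 : Matrix ι ι ℂ)) ^ K = ((A - β • (1 : Matrix ι ι ℂ)) ^ K)ᵀ := by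
    rw [Matrix.transpose_pow, Matrix.transpose_sub, Matrix.transpose_smul, Matrix.transpose_one]
  rw [h2, Matrix.mulVec_transpose] at h1
  exact h1

end gen

section tens
variable {κ : Type} [Fintype κ] [DecidableEq κ]

/-- the tensor product of two vectors -/
def tn (x y : κ → ℂ) : κ × κ → ℂ := fun p => x p.1 * y p.2

omit [DecidableEq κ] in
theorem tn_dot (x y x' y' : κ → ℂ) : tn x y ⬝ᵥ tn x' y' = (x ⬝ᵥ x') * (y ⬝ᵥ y') := by
  simp only [tn, dotProduct, Fintype.sum_prod_type, Finset.sum_mul_sum]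
  refine Finset.sum_congr rfl fun i _ => Finset.sum_congr rfl fun j _ => ?_
  ring

omit [DecidableEq κ] in
theorem tn_vecMul (x y : κ → ℂ) (A C : Matrix κ κ ℂ) :
    tn x y ᵥ* (A ⊗ₖ C) = tn (x ᵥ* A) (y ᵥ* C) := by
  funext p
  simp only [tn, Matrix.vecMul, dotProduct, Fintype.sum_prod_type, Finset.sum_mul_sum,
    Matrix.kroneckerMap_apply]
  refine Finset.sum_congr rfl fun i _ => Finset.sum_congr rfl fun j _ => ?_
  ring

end tens

section
variable {κ : Type} [Fintype κ] [DecidableEq κ]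

namespace StrData

variable {q : ℝ} {Φ N : Matrix κ κ ℂ} (D : StrData q Φ N)

/-- the coordinate functionals as row vectors -/
noncomputable def L (t : D.T) (k : ℕ) : κ → ℂ :=
  if h : k < D.a t then fun i => D.B.repr (Pi.single i 1) ⟨t, ⟨k, h⟩⟩ else 0

theorem L_dot (t : D.T) (k : ℕ) (h : k < D.a t) (y : κ → ℂ) :
    D.L t k ⬝ᵥ y = D.B.repr y ⟨t, ⟨k, h⟩⟩ := by
  have h1 : y = ∑ i, y i • (Pi.single i (1 : ℂ) : κ → ℂ) := by
    funext j
    simp [Finset.sum_apply, Pi.single_apply]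
  conv_rhs => rw [h1, map_sum, Finsupp.finsetSum_apply]
  rw [L, dif_pos h, dotProduct]
  refine Finset.sum_congr rfl fun i _ => ?_
  rw [map_smul, Finsupp.smul_apply, smul_eq_mul, mul_comm]

/-- the vectors `N ^ j v_t` -/
noncomputable def w (t : D.T) (j : ℕ) : κ → ℂ := (Matrix.toLin' N ^ j) (D.v t)

theorem w_big (t : D.T) (j : ℕ) (h : D.a t ≤ j) : D.w t j = 0 := by
  obtain ⟨i, rfl⟩ := Nat.exists_eq_add_of_le' h
  rw [w, pow_add, Module.End.mul_apply, D.hv, map_zero]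

theorem w_lt (t : D.T) (j : Fin (D.a t)) : D.w t j = D.B ⟨t, j⟩ := (D.hB t j).symm

theorem N_w (t : D.T) (j : ℕ) : N *ᵥ D.w t j = D.w t (j + 1) := by
  rw [w, w, pow_succ', Module.End.mul_apply, Matrix.toLin'_apply]

theorem L_w (t t' : D.T) (k j : ℕ) (h : k < D.a t) :
    D.L t k ⬝ᵥ D.w t' j = if t = t' ∧ k = j then 1 else 0 := by
  by_cases hj : j < D.a t'
  · rw [D.L_dot t k h, show D.w t' j = D.B ⟨t', ⟨j, hj⟩⟩ from D.w_lt t' ⟨j, hj⟩,
      Basis.repr_self, Finsupp.single_apply]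
    by_cases ht : t = t'
    · subst ht
      by_cases hk : k = j
      · subst hk
        simp
      · rw [if_neg, if_neg]
        · rintro ⟨_, h2⟩
          exact hk h2
        · intro h2
          simp only [Sigma.mk.injEq, heq_eq_eq, true_and, Fin.mk.injEq] at h2
          exact hk h2.symm
    · rw [if_neg, if_neg]
      · rintro ⟨h1, _⟩
        exact ht h1
      · intro h2
        apply ht
        exact (congrArg Sigma.fst h2).symm
  · rw [D.w_big t' j (by omega), dotProduct_zero, if_neg]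
    rintro ⟨rfl, rfl⟩
    exact hj h

/-- row vectors are determined by their products with the `w t j` -/
theorem ext_row (x y : κ → ℂ) (h : ∀ t j, x ⬝ᵥ D.w t j = y ⬝ᵥ D.w t j) : x = y := by
  have h1 : ∀ z : κ → ℂ, x ⬝ᵥ z = y ⬝ᵥ z := by
    let fx : (κ → ℂ) →ₗ[ℂ] ℂ := dotProductBilin ℂ ℂ x
    let fy : (κ → ℂ) →ₗ[ℂ] ℂ := dotProductBilin ℂ ℂ y
    have h2 : fx = fy := by
      apply D.B.ext
      rintro ⟨t, j⟩
      rw [← D.w_lt]
      exact h t j
    intro z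
    exact LinearMap.congr_fun h2 z
  funext i
  have h3 := h1 (Pi.single i 1)
  simpa using h3

theorem L_N_succ (t : D.T) (k : ℕ) (h : k + 1 < D.a t) : D.L t (k + 1) ᵥ* N = D.L t k := by
  apply D.ext_row
  intro t' j
  rw [← Matrix.dotProduct_mulVec, D.N_w, D.L_w _ _ _ _ h, D.L_w _ _ _ _ (by omega)]
  simp

theorem L_N_zero (t : D.T) : D.L t 0 ᵥ* N = 0 := by
  apply D.ext_row
  intro t' j
  rw [← Matrix.dotProduct_mulVec, D.N_w, D.L_w _ _ _ _ (D.ha t), zero_dotProduct]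
  simp

/-- the matrix of `Ψ` -/
noncomputable def P : Matrix κ κ ℂ := LinearMap.toMatrix' D.Ψ

theorem P_mulVec (x : κ → ℂ) : D.P *ᵥ x = D.Ψ x := by
  rw [P, LinearMap.toMatrix'_mulVec]

theorem P_w (t : D.T) (j : ℕ) : D.P *ᵥ D.w t j = (D.β t * (q : ℂ)⁻¹ ^ j) • D.w t j := by
  by_cases hj : j < D.a t
  · rw [D.P_mulVec, show D.w t j = D.B ⟨t, ⟨j, hj⟩⟩ from D.w_lt t ⟨j, hj⟩, D.hΨ]
    rfl
  · rw [D.w_big t j (by omega), Matrix.mulVec_zero, smul_zero]

theorem L_P (t : D.T) (k : ℕ) (h : k < D.a t) :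
    D.L t k ᵥ* D.P = (D.β t * (q : ℂ)⁻¹ ^ k) • D.L t k := by
  apply D.ext_row
  intro t' j
  rw [← Matrix.dotProduct_mulVec, D.P_w, dotProduct_smul, smul_dotProduct, D.L_w _ _ _ _ h]
  by_cases h1 : t = t' ∧ k = j
  · obtain ⟨rfl, rfl⟩ := h1
    rfl
  · rw [if_neg h1, smul_zero, smul_zero]

theorem P_comm : Commute Φ D.P := by
  have h2 := congrArg LinearMap.toMatrix' D.hcomm.eq
  rw [show Matrix.toLin' Φ * D.Ψ = (Matrix.toLin' Φ).comp D.Ψ from rfl,
    show D.Ψ * Matrix.toLin' Φ = D.Ψ.comp (Matrix.toLin' Φ) from rfl,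
    LinearMap.toMatrix'_comp, LinearMap.toMatrix'_comp, LinearMap.toMatrix'_toLin'] at h2
  exact h2

theorem P_nil : IsNilpotent (Φ - D.P) := by
  obtain ⟨k, hk⟩ := D.hnil
  refine ⟨k, ?_⟩
  have h3 : Φ - LinearMap.toMatrix' D.Ψ = LinearMap.toMatrix' (Matrix.toLin' Φ - D.Ψ) := by
    rw [map_sub, LinearMap.toMatrix'_toLin']
  have h4 : ∀ (S : Module.End ℂ (κ → ℂ)) (k : ℕ), LinearMap.toMatrix' (S ^ k)
      = (LinearMap.toMatrix' S) ^ k := by
    intro S k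
    induction k with
    | zero => simp
    | succ k ih =>
      rw [pow_succ, show S ^ k * S = (S ^ k).comp S from rfl, LinearMap.toMatrix'_comp, ih,
        pow_succ]
  rw [P, h3, ← h4, hk, map_zero]

/-- the invariant functional on the tensor square of the string `t` -/
noncomputable def psi (t : D.T) : κ × κ → ℂ :=
  ∑ k ∈ range (D.a t), (-1 : ℂ) ^ k • tn (D.L t k) (D.L t (D.a t - 1 - k))

omit [DecidableEq κ] in
theorem sum_vecMul' {ι : Type} [Fintype ι] (s : Finset ℕ) (f : ℕ → ι → ℂ) (A : Matrix ι ι ℂ) :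
    (∑ k ∈ s, f k) ᵥ* A = ∑ k ∈ s, f k ᵥ* A := by
  induction s using Finset.induction_on with
  | empty => simp
  | insert a s ha ih => rw [Finset.sum_insert ha, Finset.sum_insert ha, Matrix.add_vecMul, ih]

theorem psi_N (t : D.T) :
    D.psi t ᵥ* (N ⊗ₖ (1 : Matrix κ κ ℂ) + (1 : Matrix κ κ ℂ) ⊗ₖ N) = 0 := by
  obtain ⟨n, hn⟩ : ∃ n, D.a t = n + 1 := ⟨D.a t - 1, by have := D.ha t; omega⟩
  rw [psi, sum_vecMul', hn]
  have h1 : ∀ k ∈ range (n + 1), ((-1 : ℂ) ^ k • tn (D.L t k) (D.L t (n + 1 - 1 - k))) ᵥ*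
      (N ⊗ₖ (1 : Matrix κ κ ℂ) + (1 : Matrix κ κ ℂ) ⊗ₖ N)
      = (-1 : ℂ) ^ k • tn (D.L t k ᵥ* N) (D.L t (n - k))
        + (-1 : ℂ) ^ k • tn (D.L t k) (D.L t (n - k) ᵥ* N) := by
    intro k _
    rw [Matrix.smul_vecMul, Matrix.vecMul_add, tn_vecMul, tn_vecMul, Matrix.vecMul_one,
      Matrix.vecMul_one, smul_add, Nat.add_sub_cancel]
  rw [Finset.sum_congr rfl h1, Finset.sum_add_distrib]
  have tz1 : ∀ y : κ → ℂ, tn 0 y = 0 := by
    intro y
    funext p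
    simp [tn]
  have tz2 : ∀ y : κ → ℂ, tn y 0 = 0 := by
    intro y
    funext p
    simp [tn]
  rw [Finset.sum_range_succ', Finset.sum_range_succ (fun k => (-1 : ℂ) ^ k •
    tn (D.L t k) (D.L t (n - k) ᵥ* N)), D.L_N_zero, tz1, smul_zero, add_zero, Nat.sub_self,
    D.L_N_zero, tz2, smul_zero, add_zero, ← Finset.sum_add_distrib]
  apply Finset.sum_eq_zero
  intro k hk
  rw [mem_range] at hk
  rw [D.L_N_succ t k (by omega)]
  have h2 : n - k = (n - (k + 1)) + 1 := by omega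
  rw [h2, D.L_N_succ t _ (by omega), pow_succ, mul_neg_one, neg_smul, neg_add_cancel]

theorem psi_P (t : D.T) :
    D.psi t ᵥ* (D.P ⊗ₖ D.P) = (D.β t ^ 2 * (q : ℂ)⁻¹ ^ (D.a t - 1)) • D.psi t := by
  rw [psi, sum_vecMul', Finset.smul_sum]
  refine Finset.sum_congr rfl fun k hk => ?_
  rw [mem_range] at hk
  rw [Matrix.smul_vecMul, tn_vecMul, D.L_P t k hk, D.L_P t _ (by omega)]
  funext p
  simp only [tn, Pi.smul_apply, smul_eq_mul]
  have h1 : (q : ℂ)⁻¹ ^ (D.a t - 1) = (q : ℂ)⁻¹ ^ k * (q : ℂ)⁻¹ ^ (D.a t - 1 - k) := by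
    rw [← pow_add]
    congr 1
    omega
  rw [h1]
  ring

theorem psi_dot (t t' : D.T) :
    D.psi t ⬝ᵥ tn (D.w t' 0) (D.w t' (D.a t' - 1)) = if t = t' then 1 else 0 := by
  have ha := D.ha t
  rw [psi, sum_dotProduct]
  have h1 : ∀ k ∈ range (D.a t), ((-1 : ℂ) ^ k • tn (D.L t k) (D.L t (D.a t - 1 - k))) ⬝ᵥ
      tn (D.w t' 0) (D.w t' (D.a t' - 1)) = if k = 0 then (if t = t' then 1 else 0) else 0 := by
    intro k hk
    rw [mem_range] at hk
    rw [smul_dotProduct, tn_dot, D.L_w _ _ _ _ hk, D.L_w _ _ _ _ (by omega)]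
    by_cases h0 : k = 0
    · subst h0
      by_cases ht : t = t'
      · subst ht
        simp
      · simp [ht]
    · simp [h0]
  rw [Finset.sum_congr rfl h1, Finset.sum_ite_eq' (range (D.a t)) 0, if_pos (mem_range.mpr ha)]

end StrData

end

end Pool.Agent.WM66
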