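import Pool.Agent.WM66.Count

/-!
The rank of `N ⊗ 1 + 1 ⊗ N` and purity.
-/

namespace Pool.Agent.WM66

open Module Matrix Pool.Agent.WM77 Finset Kronecker

section
variable {κ : Type} [Fintype κ] [DecidableEq κ]

theorem square_exists {q : ℝ} (hq : 1 < q) {Φ N : Matrix κ κ ℂ} (hΦ : Φ.det ≠ 0)
    (hN : IsNilpotent N) (hc : N * Φ = (q : ℂ) • (Φ * N)) :
    Nonempty (StrData q (Φ ⊗ₖ Φ) (N ⊗ₖ (1 : Matrix κ κ ℂ) + (1 : Matrix κ κ ℂ) ⊗ₖ N)) := by
  have kk : ∀ (A B : Matrix κ κ ℂ) (A' B' : Matrix κ κ ℂ),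
      (A ⊗ₖ A') * (B ⊗ₖ B') = (A * B) ⊗ₖ (A' * B') := fun A B A' B' =>
    (Matrix.mul_kronecker_mul A B A' B').symm
  apply exists_strData q hq
  · rw [Matrix.det_kronecker]
    exact mul_ne_zero (pow_ne_zero _ hΦ) (pow_ne_zero _ hΦ)
  · apply Commute.isNilpotent_add
    · rw [Commute, SemiconjBy, kk, kk, Matrix.mul_one, Matrix.one_mul]
    · obtain ⟨k, hk⟩ := hN
      refine ⟨k, ?_⟩
      have : ∀ k : ℕ, (N ⊗ₖ (1 : Matrix κ κ ℂ)) ^ k = (N ^ k) ⊗ₖ (1 : Matrix κ κ ℂ) := by
        intro k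
        induction k with
        | zero => simp
        | succ k ih => rw [pow_succ, ih, kk, ← pow_succ, Matrix.mul_one]
      rw [this, hk, Matrix.zero_kronecker]
    · obtain ⟨k, hk⟩ := hN
      refine ⟨k, ?_⟩
      have : ∀ k : ℕ, ((1 : Matrix κ κ ℂ) ⊗ₖ N) ^ k = (1 : Matrix κ κ ℂ) ⊗ₖ (N ^ k) := by
        intro k
        induction k with
        | zero => simp
        | succ k ih => rw [pow_succ, ih, kk, ← pow_succ, Matrix.mul_one]
      rw [this, hk, Matrix.kronecker_zero]
  · rw [add_mul, mul_add, kk, kk, kk, kk, Matrix.mul_one, Matrix.one_mul, hc,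
      Matrix.smul_kronecker, Matrix.kronecker_smul, smul_add]

namespace StrData

variable {q : ℝ} {Φ N : Matrix κ κ ℂ} (D : StrData q Φ N)

theorem prod_norm (hq : 1 < q) :
    ‖Φ.det‖ ^ 2 = ∏ s, (‖D.β s‖ ^ 2 / q ^ (D.a s - 1)) ^ (D.a s) := by
  have hq0 : 0 < q := by linarith
  have hqc : (q : ℂ) ≠ 0 := by exact_mod_cast hq0.ne'
  obtain ⟨e, had⟩ := D.exists_adapted
  have hα : ∀ i, aS (q : ℂ) D.a D.β (e.symm i) ≠ 0 := fun i =>
    mul_ne_zero (D.hβ _) (pow_ne_zero _ (inv_ne_zero hqc))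
  rw [had.det_eq hα, Equiv.prod_comp e.symm (aS (q : ℂ) D.a D.β), norm_prod, Fintype.prod_sigma,
    ← Finset.prod_pow]
  refine Finset.prod_congr rfl fun s _ => ?_
  have h1 : ∀ j : Fin (D.a s), ‖aS (q : ℂ) D.a D.β ⟨s, j⟩‖ = ‖D.β s‖ / q ^ (j : ℕ) := fun j =>
    norm_aS hq0 D.a D.β ⟨s, j⟩
  rw [Finset.prod_congr rfl fun j _ => h1 j, sq]
  have h2 : ∏ j : Fin (D.a s), ‖D.β s‖ / q ^ (j : ℕ)
      = ∏ j : Fin (D.a s), ‖D.β s‖ / q ^ (D.a s - 1 - (j : ℕ)) := by
    rw [← Equiv.prod_comp Fin.revPerm]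
    refine Finset.prod_congr rfl fun j _ => ?_
    rw [Fin.revPerm_apply, Fin.val_rev]
    congr 2
    omega
  conv_lhs => rw [h2]
  rw [← h2]
  conv_lhs => arg 1; rw [h2]
  rw [← Finset.prod_mul_distrib]
  have h3 : ∀ j ∈ (univ : Finset (Fin (D.a s))), ‖D.β s‖ / q ^ (D.a s - 1 - (j : ℕ)) *
      (‖D.β s‖ / q ^ (j : ℕ)) = ‖D.β s‖ ^ 2 / q ^ (D.a s - 1) := by
    intro j _
    rw [div_mul_div_comm, ← pow_add, ← sq]
    congr 2
    have := j.2
    omega
  rw [Finset.prod_congr rfl h3, Finset.prod_const, Finset.card_univ, Fintype.card_fin]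

theorem a_le {ν : ℕ} (hν : N ^ ν = 0) (t : D.T) : D.a t ≤ ν := by
  by_contra h
  have h1 : D.w t ν = 0 := by
    rw [w, ← Matrix.toLin'_pow, hν, map_zero, LinearMap.zero_apply]
  have h2 : D.w t ν = D.B ⟨t, ⟨ν, by omega⟩⟩ := D.w_lt t ⟨ν, by omega⟩
  exact D.B.ne_zero _ (h2.symm.trans h1)

end StrData

end

open Classical in
theorem rank_test {b ν : ℕ} (q : ℝ) (hq : 1 < q) (Φ N : Matrix (Fin b) (Fin b) ℂ)
    (hΦ : Φ.det ≠ 0) (hN : N ^ ν = 0) (hc : N * Φ = (q : ℂ) • (Φ * N)) :
    ∃ r δ : ℕ, PureCount q Φ N r ∧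
      window q (Φ ⊗ₖ Φ) + (N ⊗ₖ (1 : Matrix (Fin b) (Fin b) ℂ)
        + (1 : Matrix (Fin b) (Fin b) ℂ) ⊗ₖ N).rank + δ = b ^ 2 ∧
      (‖Φ.det‖ = 1 → (δ = 0 ↔ r = b)) ∧
      ((∃ S : Matrix (Fin b) (Fin b) ℂ, S.det ≠ 0 ∧ Φᵀ * S * Φ = S ∧ Nᵀ * S + S * N = 0) →
        b ≤ r + 2 * ν * δ) := by
  have hq0 : 0 < q := by linarith
  have hqc : (q : ℂ) ≠ 0 := by exact_mod_cast hq0.ne'
  have hNn : IsNilpotent N := ⟨ν, hN⟩
  obtain ⟨D⟩ := exists_strData q hq Φ N hΦ hNn hc
  obtain ⟨D₂⟩ := square_exists hq hΦ hNn hc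
  set r := ∑ t, (if Pur q D.a D.β t then D.a t else 0) with hr
  set δ := (univ.filter fun t => D₂.Miss t).card with hδ
  have hPC : PureCount q Φ N r := D.pureCount hq
  have hbs : b = ∑ t, D.a t := by
    have := D.card_sum
    rwa [Fintype.card_fin] at this
  have hlow := low_count hq D D₂
  have hle : (univ.filter fun t => ‖D₂.β t‖ < 1).card ≤ δ := by
    apply Finset.card_le_card
    intro t ht
    rw [mem_filter] at ht ⊢
    exact ⟨mem_univ _, D₂.miss_of_lt hq t ht.2⟩
  refine ⟨r, δ, hPC, ?_, ?_, ?_⟩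
  · rw [D₂.window_add hq, Fintype.card_prod, Fintype.card_fin, sq]
  · intro hdet
    have hcount := D.count_eq_card hq hPC
    rw [Fintype.card_fin] at hcount
    constructor
    · intro h0
      rw [hcount]
      have h1 : ∀ s, q ^ (D.a s - 1) ≤ ‖D.β s‖ ^ 2 := by
        intro s
        by_contra h
        have h2 : s ∈ univ.filter fun s => ‖D.β s‖ ^ 2 < q ^ (D.a s - 1) := by
          rw [mem_filter]
          exact ⟨mem_univ _, not_le.mp h⟩
        have h3 := Finset.card_pos.mpr ⟨s, h2⟩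
        omega
      have h2 := D.prod_norm hq
      rw [hdet, one_pow] at h2
      have h3 : ∀ s, 1 ≤ ‖D.β s‖ ^ 2 / q ^ (D.a s - 1) := by
        intro s
        rw [le_div_iff₀ (pow_pos hq0 _), one_mul]
        exact h1 s
      have h4 : ∀ s ∈ (univ : Finset D.T), 1 ≤ (‖D.β s‖ ^ 2 / q ^ (D.a s - 1)) ^ (D.a s) :=
        fun s _ => one_le_pow₀ (h3 s)
      intro t
      rw [pur_iff hq _ _ _ (D.ha t)]
      by_contra hne
      have h5 : 1 < ‖D.β t‖ ^ 2 / q ^ (D.a t - 1) := by
        rw [lt_div_iff₀ (pow_pos hq0 _), one_mul]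
        exact lt_of_le_of_ne (h1 t) (Ne.symm hne)
      have h6 : 1 < (‖D.β t‖ ^ 2 / q ^ (D.a t - 1)) ^ (D.a t) :=
        one_lt_pow₀ h5 (by have := D.ha t; omega)
      have h7 : 1 ≤ ∏ s ∈ univ.erase t, (‖D.β s‖ ^ 2 / q ^ (D.a s - 1)) ^ (D.a s) := by
        have h8 : ∏ _s ∈ univ.erase t, (1 : ℝ)
            ≤ ∏ s ∈ univ.erase t, (‖D.β s‖ ^ 2 / q ^ (D.a s - 1)) ^ (D.a s) :=
          Finset.prod_le_prod (fun _ _ => zero_le_one) fun s _ => h4 s (mem_univ s)
        rwa [Finset.prod_const_one] at h8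
      rw [← Finset.mul_prod_erase _ _ (mem_univ t)] at h2
      nlinarith
    · intro hrb
      have hpur := hcount.mp hrb
      -- the tensor square is pure
      obtain ⟨e, had⟩ := D.exists_adapted
      obtain ⟨M, hM, hp⟩ := (had.kron had).pure q
      have hall : (univ.filter fun i : Fin b × Fin b => ‖aS (q : ℂ) D.a D.β (e.symm i.1) *
          aS (q : ℂ) D.a D.β (e.symm i.2)‖
          = q ^ (((sS D.a (e.symm i.1) + sS D.a (e.symm i.2) : ℤ) : ℝ) / 2)) = univ := by
        rw [Finset.filter_eq_self]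
        intro i _
        have h1 := fun x => (pure_string q D.a D.β hq D.hβ x).mpr (hpur x.1)
        rw [norm_mul, h1, h1, ← Real.rpow_add hq0]
        congr 1
        push_cast
        ring
      rw [hall, Finset.card_univ] at hp
      have hP2 : PureCount q (Φ ⊗ₖ Φ) (N ⊗ₖ (1 : Matrix (Fin b) (Fin b) ℂ)
          + (1 : Matrix (Fin b) (Fin b) ℂ) ⊗ₖ N) (Fintype.card (Fin b × Fin b)) :=
        ⟨M, fun M' => ⟨fun h => h.unique hM, fun h => by rw [h]; exact hM⟩, hp⟩
      have hpur2 := (D₂.count_eq_card hq hP2).mp rfl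
      rw [hδ, Finset.card_eq_zero, Finset.filter_eq_empty_iff]
      intro t _
      exact D₂.not_miss_of_pur hq t (hpur2 t)
  · rintro ⟨S, hS, h1, h2⟩
    -- duality
    obtain ⟨e, had⟩ := D.exists_adapted
    have key : ∀ (P : (Σ t, Fin (D.a t)) → Prop) [DecidablePred P]
        [DecidablePred fun i : Fin b => P (e.symm i)],
        (univ.filter fun i : Fin b => P (e.symm i)).card = (univ.filter P).card := by
      intro P _ _
      refine Finset.card_bij (fun i _ => e.symm i) ?_ ?_ ?_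
      · intro i hi
        rw [mem_filter] at hi ⊢
        exact ⟨mem_univ _, hi.2⟩
      · intro i _ j _ hij
        exact e.symm.injective hij
      · intro x hx
        rw [mem_filter] at hx
        exact ⟨e x, by rw [mem_filter, e.symm_apply_apply]; exact ⟨mem_univ _, hx.2⟩,
          e.symm_apply_apply x⟩
    have hα : ∀ i, aS (q : ℂ) D.a D.β (e.symm i) ≠ 0 := fun i =>
      mul_ne_zero (D.hβ _) (pow_ne_zero _ (inv_ne_zero hqc))
    have hCC : ∀ s c, CC (q : ℂ) D.a D.β s c = CC (q : ℂ) D.a (dualB (q : ℂ) D.a D.β) s c := by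
      intro s c
      rw [CC_dual (q : ℂ) D.a hqc D.β D.hβ s c, CC]
      have h3 := dual_count had hα hΦ hS h1 h2 c s
      exact (key fun x => sS D.a x = s ∧ aS (q : ℂ) D.a D.β x = c).symm.trans
        (h3.trans (key fun x => -sS D.a x = s ∧ (aS (q : ℂ) D.a D.β x)⁻¹ = c))
    have hKK : ∀ n, 1 ≤ n → ∀ c, KK D.a D.β n c = KK D.a (dualB (q : ℂ) D.a D.β) n c := by
      intro n hn c
      have e1 := KK_eq (q : ℂ) D.a hqc D.β n hn c
      have e2 := KK_eq (q : ℂ) D.a hqc (dualB (q : ℂ) D.a D.β) n hn c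
      rw [← hCC, ← hCC] at e2
      omega
    have hodd := fun n (hn : 1 ≤ n) => odd_count q D.a D.β hq D.hβ n hn (hKK n hn)
    set Sm := univ.filter fun s => ‖D.β s‖ ^ 2 < q ^ (D.a s - 1) with hSm
    set Sp := univ.filter fun s => q ^ (D.a s - 1) < ‖D.β s‖ ^ 2 with hSp
    have hroot : ∀ t, (q ^ (((D.a t : ℝ) - 1) / 2)) ^ 2 = q ^ (D.a t - 1) := by
      intro t
      rw [← Real.rpow_natCast (q ^ (((D.a t : ℝ) - 1) / 2)) 2, ← Real.rpow_mul hq0.le,
        ← Real.rpow_natCast]
      congr 1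
      rw [Nat.cast_sub (D.ha t)]
      push_cast
      ring
    have hR0 : ∀ t, 0 ≤ q ^ (((D.a t : ℝ) - 1) / 2) := fun t => (Real.rpow_pos_of_pos hq0 _).le
    have hSpm : Sp.card = Sm.card := by
      have hfib : ∀ (X : Finset D.T), X.card
          = ∑ n ∈ range (ν + 1), (X.filter fun t => D.a t = n).card := by
        intro X
        apply Finset.card_eq_sum_card_fiberwise
        intro t _
        simp only [coe_range, Set.mem_Iio]
        have := D.a_le hN t
        omega
      rw [hfib Sp, hfib Sm]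
      refine Finset.sum_congr rfl fun n _ => ?_
      rcases Nat.eq_zero_or_pos n with h0 | hn
      · subst h0
        rw [Finset.card_eq_zero.mpr, Finset.card_eq_zero.mpr]
        · rw [Finset.filter_eq_empty_iff]
          intro t _ h
          have := D.ha t
          omega
        · rw [Finset.filter_eq_empty_iff]
          intro t _ h
          have := D.ha t
          omega
      · have h3 := hodd n hn
        have e1 : (Sp.filter fun t => D.a t = n)
            = univ.filter fun t => D.a t = n ∧ q ^ (((n : ℝ) - 1) / 2) < ‖D.β t‖ := by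
          ext t
          simp only [hSp, mem_filter, mem_univ, true_and]
          constructor
          · rintro ⟨g1, g2⟩
            refine ⟨g2, ?_⟩
            rw [← g2]
            rw [← hroot] at g1
            exact lt_of_pow_lt_pow_left₀ 2 (norm_nonneg _) g1
          · rintro ⟨g1, g2⟩
            refine ⟨?_, g1⟩
            rw [← g1] at g2
            rw [← hroot]
            exact pow_lt_pow_left₀ g2 (hR0 t) (by norm_num)
        have e2 : (Sm.filter fun t => D.a t = n)
            = univ.filter fun t => D.a t = n ∧ ‖D.β t‖ < q ^ (((n : ℝ) - 1) / 2) := by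
          ext t
          simp only [hSm, mem_filter, mem_univ, true_and]
          constructor
          · rintro ⟨g1, g2⟩
            refine ⟨g2, ?_⟩
            rw [← g2]
            rw [← hroot] at g1
            exact lt_of_pow_lt_pow_left₀ 2 (hR0 t) g1
          · rintro ⟨g1, g2⟩
            refine ⟨?_, g1⟩
            rw [← g1] at g2
            rw [← hroot]
            exact pow_lt_pow_left₀ g2 (norm_nonneg _) (by norm_num)
        rw [e1, e2]
        exact h3
    have hb1 : b ≤ r + ν * (Sm.card + Sp.card) := by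
      have g1 : ∀ t ∈ (univ : Finset D.T), D.a t ≤ (if Pur q D.a D.β t then D.a t else 0)
          + ν * ((if t ∈ Sm then 1 else 0) + (if t ∈ Sp then 1 else 0)) := by
        intro t _
        have g2 := D.a_le hN t
        by_cases hP : Pur q D.a D.β t
        · rw [if_pos hP]
          exact Nat.le_add_right _ _
        · rw [if_neg hP]
          rw [pur_iff hq _ _ _ (D.ha t)] at hP
          rcases lt_or_gt_of_ne hP with g3 | g3
          · have : t ∈ Sm := by
              rw [hSm, mem_filter]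
              exact ⟨mem_univ _, g3⟩
            rw [if_pos this]
            nlinarith [Nat.zero_le (ν * (if t ∈ Sp then 1 else 0))]
          · have : t ∈ Sp := by
              rw [hSp, mem_filter]
              exact ⟨mem_univ _, g3⟩
            rw [if_pos this]
            nlinarith [Nat.zero_le (ν * (if t ∈ Sm then 1 else 0))]
      calc b = ∑ t, D.a t := hbs
        _ ≤ ∑ t, ((if Pur q D.a D.β t then D.a t else 0)
          + ν * ((if t ∈ Sm then 1 else 0) + (if t ∈ Sp then 1 else 0))) :=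
            Finset.sum_le_sum g1
        _ = r + ν * (Sm.card + Sp.card) := by
            rw [Finset.sum_add_distrib, ← Finset.mul_sum, Finset.sum_add_distrib]
            have e1 : ∀ X : Finset D.T, (∑ t, if t ∈ X then 1 else 0) = X.card := by
              intro X
              simp
            rw [e1, e1]
    calc b ≤ r + ν * (Sm.card + Sp.card) := hb1
      _ ≤ r + ν * (δ + δ) := by
          apply Nat.add_le_add_left
          apply Nat.mul_le_mul_left
          omega
      _ = r + 2 * ν * δ := by ring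

end Pool.Agent.WM66
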