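import Pool.Agent.WM77.FinalS
import Pool.Agent.WM77.Det

/-!
String bases for matrices over an arbitrary index type, the characteristic polynomial and the rank.
-/

namespace Pool.Agent.WM66

open Module Matrix Pool.Agent.WM77

section
variable {κ : Type} [Fintype κ] [DecidableEq κ]

/-- A string basis for the pair `(Φ, N)`. -/
structure StrData (q : ℝ) (Φ N : Matrix κ κ ℂ) where
  T : Type
  fT : Fintype T
  dT : DecidableEq T
  a : T → ℕ
  β : T → ℂ
  B : Basis (Σ t, Fin (a t)) ℂ (κ → ℂ)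
  v : T → κ → ℂ
  Ψ : Module.End ℂ (κ → ℂ)
  ha : ∀ t, 0 < a t
  hβ : ∀ t, β t ≠ 0
  hcomm : Commute (Matrix.toLin' Φ) Ψ
  hnil : IsNilpotent (Matrix.toLin' Φ - Ψ)
  hB : ∀ t (j : Fin (a t)), B ⟨t, j⟩ = (Matrix.toLin' N ^ (j : ℕ)) (v t)
  hv : ∀ t, (Matrix.toLin' N ^ (a t)) (v t) = 0
  hΨ : ∀ x, Ψ (B x) = aS (q : ℂ) a β x • B x

theorem exists_strData (q : ℝ) (hq : 1 < q) (Φ N : Matrix κ κ ℂ)
    (hΦ : Φ.det ≠ 0) (hN : IsNilpotent N) (hc : N * Φ = (q : ℂ) • (Φ * N)) :
    Nonempty (StrData q Φ N) := by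
  have hq0 : (q : ℂ) ≠ 0 := by
    have : q ≠ 0 := by linarith
    exact_mod_cast this
  have hql : ∀ l : ℕ, 0 < l → (q : ℂ) ^ l ≠ 1 := by
    intro l hl h
    have h1 : q ^ l = 1 := by exact_mod_cast h
    have h2 : 1 < q ^ l := one_lt_pow₀ hq (by omega)
    linarith
  have hcx : ∀ x, Matrix.toLin' N (Matrix.toLin' Φ x)
      = (q : ℂ) • Matrix.toLin' Φ (Matrix.toLin' N x) := by
    intro x
    rw [← LinearMap.comp_apply, ← Matrix.toLin'_mul, hc, map_smul, Matrix.toLin'_mul]
    rfl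
  obtain ⟨Ψ, hss, hcomm, hnil, hcΨ⟩ := exists_ss hq0 hcx
  have hinjΦ : Function.Injective (Matrix.toLin' Φ) := by
    intro v w h
    rw [Matrix.toLin'_apply, Matrix.toLin'_apply] at h
    exact Matrix.mulVec_injective_iff_isUnit.mpr
      ((Matrix.isUnit_iff_isUnit_det Φ).mpr (isUnit_iff_ne_zero.mpr hΦ)) h
  have hinj : Function.Injective Ψ := by
    rw [← LinearMap.ker_eq_bot, LinearMap.ker_eq_bot']
    intro x hx
    obtain ⟨k, hk⟩ := hnil
    have h1 : ∀ j : ℕ, ((Matrix.toLin' Φ - Ψ) ^ j) x = (Matrix.toLin' Φ ^ j) x := by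
      intro j
      induction j with
      | zero => rfl
      | succ j ih =>
        have h2 : Ψ ((Matrix.toLin' Φ ^ j) x) = 0 := by
          have h3 : Commute (Matrix.toLin' Φ ^ j) Ψ := Commute.pow_left hcomm j
          have h4 := LinearMap.congr_fun h3.eq x
          rw [Module.End.mul_apply, Module.End.mul_apply, hx, map_zero] at h4
          exact h4.symm
        rw [pow_succ', Module.End.mul_apply, ih, LinearMap.sub_apply, h2, sub_zero, pow_succ',
          Module.End.mul_apply]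
    have h5 := h1 k
    rw [hk, LinearMap.zero_apply] at h5
    have h6 : ∀ j : ℕ, Function.Injective (Matrix.toLin' Φ ^ j) := by
      intro j
      induction j with
      | zero => exact fun _ _ h => h
      | succ j ih =>
        rw [pow_succ]
        intro y z h
        rw [Module.End.mul_apply, Module.End.mul_apply] at h
        exact hinjΦ (ih h)
    exact h6 k (by rw [← h5, map_zero])
  have hNn : IsNilpotent (Matrix.toLin' N : Module.End ℂ (κ → ℂ)) := by
    obtain ⟨k, hk⟩ := hN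
    exact ⟨k, by rw [← Matrix.toLin'_pow, hk, map_zero]⟩
  obtain ⟨T, i1, i2, a, β, B, v, ha, hB, hv, hβ⟩ :=
    str_exists _ (κ → ℂ) Ψ (Matrix.toLin' N) q rfl hss hinj hNn hq0 hql hcΨ
  have hv0 : ∀ t, v t ≠ 0 := by
    intro t h
    have h1 := hB t ⟨0, ha t⟩
    rw [pow_zero, h] at h1
    exact B.ne_zero _ (h1.trans (by simp))
  refine ⟨⟨T, i1, i2, a, β, B, v, Ψ, ha, ?_, hcomm, hnil, hB, hv, ?_⟩⟩
  · intro t h
    have h1 : Ψ (v t) = 0 := by rw [hβ, h, zero_smul]
    exact hv0 t (hinj (by rw [h1, map_zero]))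
  · rintro ⟨t, j⟩
    rw [hB]
    have h1 := comm_pow hcΨ (j : ℕ) (v t)
    rw [hβ, map_smul] at h1
    have h2 : ((q : ℂ)⁻¹ ^ (j : ℕ)) • (β t • (Matrix.toLin' N ^ (j : ℕ)) (v t))
        = Ψ ((Matrix.toLin' N ^ (j : ℕ)) (v t)) := by
      rw [h1, smul_smul, ← mul_pow, inv_mul_cancel₀ hq0, one_pow, one_smul]
    rw [← h2, smul_smul, mul_comm]
    rfl

/-- commuting nilpotent perturbations do not change the characteristic polynomial -/
theorem charpoly_eq_of_nil (Φ Ψ : Matrix κ κ ℂ) (hc : Commute Φ Ψ) (hn : IsNilpotent (Φ - Ψ)) :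
    Φ.charpoly = Ψ.charpoly := by
  have key : ∀ (A C : Matrix κ κ ℂ), Commute A C → IsNilpotent (A - C) → ∀ z : ℂ,
      (Matrix.scalar κ z - C).det ≠ 0 →
      (Matrix.scalar κ z - A).det = (Matrix.scalar κ z - C).det := by
    intro A C hc hn z hz
    set S : Matrix κ κ ℂ := Matrix.scalar κ z - C with hS
    have hu : IsUnit S.det := isUnit_iff_ne_zero.mpr hz
    have e1 : Matrix.scalar κ z - A = S * (1 + S⁻¹ * (C - A)) := by
      rw [Matrix.mul_add, Matrix.mul_one, ← Matrix.mul_assoc, Matrix.mul_nonsing_inv _ hu,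
        Matrix.one_mul, hS]
      abel
    have c0 : Commute C (C - A) := (Commute.refl _).sub_right hc.symm
    have c1 : Commute S (C - A) := by
      rw [hS]
      exact Commute.sub_left (Matrix.scalar_commute z (fun r => mul_comm _ _) _) c0
    have c2 : Commute S⁻¹ (C - A) := by
      rw [Commute, SemiconjBy]
      calc S⁻¹ * (C - A) = S⁻¹ * ((C - A) * S) * S⁻¹ := by
            rw [Matrix.mul_assoc, Matrix.mul_assoc, Matrix.mul_nonsing_inv _ hu, Matrix.mul_one]
        _ = S⁻¹ * (S * (C - A)) * S⁻¹ := by rw [c1.eq]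
        _ = (C - A) * S⁻¹ := by
            rw [← Matrix.mul_assoc, Matrix.nonsing_inv_mul _ hu, Matrix.one_mul]
    have hn' : IsNilpotent (C - A) := by
      have : C - A = -(A - C) := by abel
      rw [this]
      exact hn.neg
    have e2 : IsNilpotent (S⁻¹ * (C - A)) := Commute.isNilpotent_mul_left c2 hn'
    rw [e1, Matrix.det_mul, det_one_add_nil _ e2, mul_one]
  apply Polynomial.funext
  intro z
  rw [Matrix.eval_charpoly, Matrix.eval_charpoly]
  by_cases h1 : (Matrix.scalar κ z - Ψ).det = 0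
  · by_cases h2 : (Matrix.scalar κ z - Φ).det = 0
    · rw [h1, h2]
    · have hn' : IsNilpotent (Ψ - Φ) := by
        have : Ψ - Φ = -(Φ - Ψ) := by abel
        rw [this]
        exact hn.neg
      exact (key Ψ Φ hc.symm hn' z h2).symm
  · exact key Φ Ψ hc hn z h1

/-- adapted data from a basis, for any index type -/
theorem adapted_of_basis' {Φ N : Matrix κ κ ℂ} {Ψ H E : Module.End ℂ (κ → ℂ)}
    (hcomm : Commute (Matrix.toLin' Φ) Ψ) (hnil : IsNilpotent (Matrix.toLin' Φ - Ψ))
    (B' : Basis κ ℂ (κ → ℂ)) (s : κ → ℤ) (α : κ → ℂ)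
    (hB1' : ∀ i, H (B' i) = (s i : ℂ) • B' i) (hB2' : ∀ i, Ψ (B' i) = α i • B' i)
    (hE1 : ∀ x, E (Matrix.toLin' N x) - Matrix.toLin' N (E x) = H x)
    (hE2 : ∀ x, H (Matrix.toLin' N x) = Matrix.toLin' N (H x) - (2 : ℂ) • Matrix.toLin' N x)
    (hE3 : ∀ x, H (E x) = E (H x) + (2 : ℂ) • E x) : Adapted Φ N s α := by
  let P : Matrix κ κ ℂ := (Pi.basisFun ℂ κ).toMatrix B'
  let Q : Matrix κ κ ℂ := B'.toMatrix (Pi.basisFun ℂ κ)
  have hPQ : P * Q = 1 := Basis.toMatrix_mul_toMatrix_flip _ _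
  have hPc : ∀ i j, P i j = B' j i := fun i j => rfl
  have hdiag : ∀ (T : Module.End ℂ (κ → ℂ)) (t : κ → ℂ), (∀ i, T (B' i) = t i • B' i) →
      LinearMap.toMatrix' T = P * Matrix.diagonal t * Q := by
    intro T t hT
    have h1 : LinearMap.toMatrix' T * P = P * Matrix.diagonal t := by
      ext i j
      rw [Matrix.mul_diagonal]
      have h2 : (LinearMap.toMatrix' T * P) i j = (LinearMap.toMatrix' T).mulVec (B' j) i := by
        simp only [Matrix.mul_apply, Matrix.mulVec, dotProduct, hPc]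
      rw [h2, LinearMap.toMatrix'_mulVec, hT, hPc, Pi.smul_apply, smul_eq_mul, mul_comm]
    rw [← h1, Matrix.mul_assoc, hPQ, Matrix.mul_one]
  have hmul : ∀ S T : Module.End ℂ (κ → ℂ), LinearMap.toMatrix' (S * T)
      = LinearMap.toMatrix' S * LinearMap.toMatrix' T := fun S T => LinearMap.toMatrix'_comp S T
  refine ⟨P, Q, LinearMap.toMatrix' Ψ, LinearMap.toMatrix' E, LinearMap.toMatrix' H, hPQ,
    hdiag Ψ _ hB2', hdiag H _ hB1', ?_, ?_, ?_, ?_, ?_⟩
  · have h1 := congrArg LinearMap.toMatrix' hcomm.eq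
    rw [hmul, hmul, LinearMap.toMatrix'_toLin'] at h1
    exact h1
  · obtain ⟨k, hk⟩ := hnil
    refine ⟨k, ?_⟩
    have h1 : ∀ (T : Module.End ℂ (κ → ℂ)) (k : ℕ), LinearMap.toMatrix' (T ^ k)
        = (LinearMap.toMatrix' T) ^ k := by
      intro T k
      induction k with
      | zero => simp
      | succ k ih => rw [pow_succ, hmul, ih, pow_succ]
    have h2 : Φ - LinearMap.toMatrix' Ψ = LinearMap.toMatrix' (Matrix.toLin' Φ - Ψ) := by
      rw [map_sub, LinearMap.toMatrix'_toLin']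
    rw [h2, ← h1, hk, map_zero]
  · have h1 : H * Matrix.toLin' N = Matrix.toLin' N * H - (2 : ℂ) • Matrix.toLin' N :=
      LinearMap.ext hE2
    have h2 := congrArg LinearMap.toMatrix' h1
    rw [map_sub, map_smul, hmul, hmul, LinearMap.toMatrix'_toLin'] at h2
    exact h2
  · have h1 : H * E = E * H + (2 : ℂ) • E := LinearMap.ext hE3
    have h2 := congrArg LinearMap.toMatrix' h1
    rw [map_add, map_smul, hmul, hmul] at h2
    exact h2
  · have h1 : E * Matrix.toLin' N - Matrix.toLin' N * E = H := LinearMap.ext hE1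
    have h2 := congrArg LinearMap.toMatrix' h1
    rw [map_sub, hmul, hmul, LinearMap.toMatrix'_toLin'] at h2
    exact h2

namespace StrData

variable {q : ℝ} {Φ N : Matrix κ κ ℂ} (D : StrData q Φ N)

instance : Fintype D.T := D.fT
instance : DecidableEq D.T := D.dT

theorem exists_adapted : ∃ e : (Σ t, Fin (D.a t)) ≃ κ,
    Adapted Φ N (fun i => sS D.a (e.symm i)) (fun i => aS (q : ℂ) D.a D.β (e.symm i)) := by
  have hcard : Fintype.card (Σ t, Fin (D.a t)) = Fintype.card κ := by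
    have := Module.finrank_eq_card_basis D.B
    rw [Module.finrank_fintype_fun_eq_card] at this
    exact this.symm
  let e : (Σ t, Fin (D.a t)) ≃ κ := Fintype.equivOfCardEq hcard
  obtain ⟨H, E, hH, hE1, hE2, hE3⟩ := strings_sl2 D.B D.v D.hB D.hv
  refine ⟨e, ?_⟩
  apply adapted_of_basis' D.hcomm D.hnil (D.B.reindex e) _ _ _ _ hE1 hE2 hE3
  · intro i
    rw [Basis.reindex_apply]
    exact hH _
  · intro i
    rw [Basis.reindex_apply]
    exact D.hΨ _

end StrData

namespace StrData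

variable {q : ℝ} {Φ N : Matrix κ κ ℂ} (D : StrData q Φ N)

theorem charpoly : Φ.charpoly = ∏ x, (Polynomial.X - Polynomial.C (aS (q : ℂ) D.a D.β x)) := by
  have h1 : Φ.charpoly = (LinearMap.toMatrix' D.Ψ).charpoly := by
    apply charpoly_eq_of_nil
    · have h2 := congrArg LinearMap.toMatrix' D.hcomm.eq
      rw [show Matrix.toLin' Φ * D.Ψ = (Matrix.toLin' Φ).comp D.Ψ from rfl,
        show D.Ψ * Matrix.toLin' Φ = D.Ψ.comp (Matrix.toLin' Φ) from rfl,
        LinearMap.toMatrix'_comp, LinearMap.toMatrix'_comp, LinearMap.toMatrix'_toLin'] at h2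
      exact h2
    · obtain ⟨k, hk⟩ := D.hnil
      refine ⟨k, ?_⟩
      have h3 : Φ - LinearMap.toMatrix' D.Ψ = LinearMap.toMatrix' (Matrix.toLin' Φ - D.Ψ) := by
        rw [map_sub, LinearMap.toMatrix'_toLin']
      have h4 : ∀ (S : Module.End ℂ (κ → ℂ)) (k : ℕ), LinearMap.toMatrix' (S ^ k)
          = (LinearMap.toMatrix' S) ^ k := by
        intro S k
        induction k with
        | zero => simp
        | succ k ih =>
          rw [pow_succ, show S ^ k * S = (S ^ k).comp S from rfl, LinearMap.toMatrix'_comp, ih,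
            pow_succ]
      rw [h3, ← h4, hk, map_zero]
  have h2 : (LinearMap.toMatrix' D.Ψ).charpoly = D.Ψ.charpoly := by
    rw [← LinearMap.toMatrix_eq_toMatrix', LinearMap.charpoly_toMatrix]
  have h3 : LinearMap.toMatrix D.B D.B D.Ψ = Matrix.diagonal (aS (q : ℂ) D.a D.β) := by
    ext i j
    rw [LinearMap.toMatrix_apply, D.hΨ, map_smul, Basis.repr_self]
    by_cases hij : i = j
    · subst hij
      simp
    · rw [Matrix.diagonal_apply_ne _ hij]
      simp [Ne.symm hij]
  rw [h1, h2, ← LinearMap.charpoly_toMatrix D.Ψ D.B, h3, Matrix.charpoly_diagonal]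

theorem roots : Φ.charpoly.roots = Finset.univ.val.map (aS (q : ℂ) D.a D.β) := by
  rw [D.charpoly]
  exact Polynomial.roots_multiset_prod_X_sub_C (Finset.univ.val.map (aS (q : ℂ) D.a D.β)) |>.symm ▸
    (by rw [Multiset.map_map]; rfl)

theorem card_sum : Fintype.card κ = ∑ t, D.a t := by
  have h1 := Module.finrank_eq_card_basis D.B
  rw [Module.finrank_fintype_fun_eq_card, Fintype.card_sigma] at h1
  simpa using h1

theorem rank_pow (k : ℕ) : (N ^ k).rank = ∑ t, (D.a t - k) := by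
  have h1 := strings_ker D.B D.v D.hB D.hv k
  rw [← h1, Matrix.rank_eq_finrank_range_toLin (N ^ k) (Pi.basisFun ℂ κ)
    (Pi.basisFun ℂ κ), Matrix.toLin_eq_toLin', Matrix.toLin'_pow]

theorem rank_add : N.rank + Fintype.card D.T = Fintype.card κ := by
  have h1 := D.rank_pow 1
  rw [pow_one] at h1
  rw [h1, D.card_sum, Fintype.card_eq_sum_ones, ← Finset.sum_add_distrib]
  refine Finset.sum_congr rfl fun t _ => ?_
  have := D.ha t
  omega

end StrData

end

end Pool.Agent.WM66
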