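import Pool.Agent.WM66.Str
import Pool.Agent.WM66.DefsR

/-!
Strings and the window.
-/

namespace Pool.Agent.WM66

open Module Matrix Pool.Agent.WM77 Finset

theorem norm_aS {T : Type} {q : ℝ} (hq0 : 0 < q) (a : T → ℕ) (β : T → ℂ) (x : Σ t, Fin (a t)) :
    ‖aS (q : ℂ) a β x‖ = ‖β x.1‖ / q ^ (x.2 : ℕ) := by
  simp only [aS, norm_mul, norm_pow, norm_inv, Complex.norm_real, Real.norm_eq_abs,
    abs_of_pos hq0, inv_pow, div_eq_mul_inv]

theorem pur_iff {T : Type} {q : ℝ} (hq : 1 < q) (a : T → ℕ) (β : T → ℂ) (t : T)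
    (ha : 0 < a t) : Pur q a β t ↔ ‖β t‖ ^ 2 = q ^ (a t - 1) := by
  have hq0 : 0 < q := by linarith
  unfold Pur
  have h1 : (q ^ (((a t : ℝ) - 1) / 2)) ^ 2 = q ^ (a t - 1) := by
    rw [← Real.rpow_natCast (q ^ (((a t : ℝ) - 1) / 2)) 2, ← Real.rpow_mul hq0.le,
      ← Real.rpow_natCast]
    congr 1
    rw [Nat.cast_sub ha]
    push_cast
    ring
  constructor
  · intro h
    rw [h, h1]
  · intro h
    rw [← h1] at h
    have h2 : 0 ≤ q ^ (((a t : ℝ) - 1) / 2) := (Real.rpow_pos_of_pos hq0 _).le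
    exact (pow_left_inj₀ (norm_nonneg _) h2 (by norm_num)).mp h

section
variable {κ : Type} [Fintype κ] [DecidableEq κ]

namespace StrData

variable {q : ℝ} {Φ N : Matrix κ κ ℂ} (D : StrData q Φ N)

/-- the string `t` has no eigenvalue in the window -/
def Miss (t : D.T) : Prop :=
  ∀ j : Fin (D.a t), ¬ (1 ≤ ‖D.β t‖ / q ^ (j : ℕ) ∧ ‖D.β t‖ / q ^ (j : ℕ) < q)

open Classical in
theorem window_add (hq : 1 < q) :
    window q Φ + N.rank + (univ.filter fun t => D.Miss t).card = Fintype.card κ := by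
  have hq0 : 0 < q := by linarith
  have h1 : window q Φ = (univ.filter fun t => ¬ D.Miss t).card := by
    unfold window
    rw [D.roots, Multiset.countP_map]
    have h2 : (Multiset.filter (fun x : (Σ t, Fin (D.a t)) => 1 ≤ ‖aS (q : ℂ) D.a D.β x‖ ∧
        ‖aS (q : ℂ) D.a D.β x‖ < q) univ.val).card
        = (univ.filter fun x : (Σ t, Fin (D.a t)) => 1 ≤ ‖aS (q : ℂ) D.a D.β x‖ ∧
        ‖aS (q : ℂ) D.a D.β x‖ < q).card := rfl
    refine h2.trans ?_
    refine Finset.card_bij (fun x _ => x.1) ?_ ?_ ?_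
    · intro x hx
      rw [mem_filter] at hx ⊢
      refine ⟨mem_univ _, fun hm => hm x.2 ?_⟩
      have h3 := hx.2
      rw [norm_aS hq0] at h3
      exact h3
    · rintro ⟨t, j⟩ hx ⟨t', j'⟩ hx' htt
      simp only at htt
      subst htt
      rw [mem_filter] at hx hx'
      have h3 := hx.2
      have h4 := hx'.2
      rw [norm_aS hq0] at h3 h4
      simp only at h3 h4
      have h5 : (j : ℕ) = (j' : ℕ) := by
        have key : ∀ m n : ℕ, m < n → ¬ (‖D.β t‖ / q ^ m < q ∧ 1 ≤ ‖D.β t‖ / q ^ n) := by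
          rintro m n hmn ⟨g1, g2⟩
          obtain ⟨d, rfl⟩ : ∃ d, n = m + 1 + d := ⟨n - (m + 1), by omega⟩
          have g3 : 0 < q ^ m := pow_pos hq0 _
          rw [div_lt_iff₀ g3] at g1
          rw [le_div_iff₀ (pow_pos hq0 _), one_mul, pow_add, pow_add, pow_one] at g2
          have g4 : 1 ≤ q ^ d := one_le_pow₀ hq.le
          have g5 : q ^ m * q * 1 ≤ q ^ m * q * q ^ d :=
            mul_le_mul_of_nonneg_left g4 (by positivity)
          nlinarith
        rcases lt_trichotomy (j : ℕ) (j' : ℕ) with h | h | h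
        · exact absurd ⟨h3.2, h4.1⟩ (key _ _ h)
        · exact h
        · exact absurd ⟨h4.2, h3.1⟩ (key _ _ h)
      have h6 : j = j' := Fin.ext h5
      rw [h6]
    · intro t ht
      rw [mem_filter] at ht
      have h3 := ht.2
      unfold Miss at h3
      push Not at h3
      obtain ⟨j, hj1, hj2⟩ := h3
      refine ⟨⟨t, j⟩, ?_, rfl⟩
      rw [mem_filter, norm_aS hq0]
      exact ⟨mem_univ _, hj1, hj2⟩
  have h2 : (univ.filter fun t => ¬ D.Miss t).card + (univ.filter fun t => D.Miss t).card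
      = Fintype.card D.T := by
    rw [add_comm]
    exact Finset.card_filter_add_card_filter_not (s := univ) (fun t => D.Miss t)
  have h3 := D.rank_add
  omega

/-- pure strings meet the window -/
theorem not_miss_of_pur (hq : 1 < q) (t : D.T) (h : Pur q D.a D.β t) : ¬ D.Miss t := by
  have hq0 : 0 < q := by linarith
  have ha := D.ha t
  rw [pur_iff hq _ _ _ ha] at h
  intro hm
  apply hm ⟨(D.a t - 1) / 2, by omega⟩
  simp only
  have h1 : 0 < q ^ ((D.a t - 1) / 2) := pow_pos hq0 _
  rw [le_div_iff₀ h1, div_lt_iff₀ h1, one_mul]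
  constructor
  · apply le_of_sq_le_sq _ (norm_nonneg _)
    rw [h, ← pow_mul]
    exact pow_le_pow_right₀ hq.le (by omega)
  · apply lt_of_pow_lt_pow_left₀ 2 (by positivity)
    rw [h, mul_pow, ← pow_mul, ← pow_add]
    exact pow_lt_pow_right₀ hq (by omega)

/-- strings that start below the window miss it -/
theorem miss_of_lt (hq : 1 < q) (t : D.T) (h : ‖D.β t‖ < 1) : D.Miss t := by
  have hq0 : 0 < q := by linarith
  intro j hj
  have h1 : 1 ≤ q ^ (j : ℕ) := one_le_pow₀ hq.le
  have h2 := hj.1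
  rw [le_div_iff₀ (by positivity), one_mul] at h2
  linarith

open Classical in
theorem pureCount (hq : 1 < q) :
    PureCount q Φ N (∑ t, if Pur q D.a D.β t then D.a t else 0) := by
  obtain ⟨e, had⟩ := D.exists_adapted
  obtain ⟨M, hM, hp⟩ := had.pure q
  refine ⟨M, fun M' => ⟨fun h => h.unique hM, fun h => by rw [h]; exact hM⟩, ?_⟩
  rw [hp]
  have key : (univ.filter fun i : κ => ‖aS (q : ℂ) D.a D.β (e.symm i)‖
      = q ^ ((sS D.a (e.symm i) : ℝ) / 2)).card
      = (univ.filter fun x => ‖aS (q : ℂ) D.a D.β x‖ = q ^ ((sS D.a x : ℝ) / 2)).card := by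
    refine Finset.card_bij (fun i _ => e.symm i) ?_ ?_ ?_
    · intro i hi
      rw [mem_filter] at hi ⊢
      exact ⟨mem_univ _, hi.2⟩
    · intro i _ j _ hij
      exact e.symm.injective hij
    · intro x hx
      rw [mem_filter] at hx
      exact ⟨e x, by rw [mem_filter, e.symm_apply_apply]; exact ⟨mem_univ _, hx.2⟩,
        e.symm_apply_apply x⟩
  rw [key, Finset.card_filter, Fintype.sum_sigma]
  refine Finset.sum_congr rfl fun t _ => ?_
  rw [Finset.sum_congr rfl fun j _ => if_congr (pure_string q D.a D.β hq D.hβ ⟨t, j⟩) rfl rfl]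
  split_ifs <;> simp

theorem pure_of_count (hq : 1 < q) {r : ℕ} (h : PureCount q Φ N r) :
    r = ∑ t, (open Classical in if Pur q D.a D.β t then D.a t else 0) := by
  obtain ⟨M, hM, hr⟩ := h
  obtain ⟨M', hM', hr'⟩ := D.pureCount hq
  have h1 : M = M' := (hM' M).mp ((hM M).mpr rfl)
  rw [← hr, h1, hr']

/-- everything is pure if and only if every string is -/
theorem count_eq_card (hq : 1 < q) {r : ℕ} (h : PureCount q Φ N r) :
    r = Fintype.card κ ↔ ∀ t, Pur q D.a D.β t := by
  classical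
  rw [D.pure_of_count hq h, D.card_sum]
  constructor
  · intro h1 t
    by_contra ht
    have h2 : (∑ t, if Pur q D.a D.β t then D.a t else 0) < ∑ t, D.a t := by
      apply Finset.sum_lt_sum
      · intro i _
        split_ifs <;> omega
      · refine ⟨t, mem_univ _, ?_⟩
        rw [if_neg ht]
        exact D.ha t
    have h3 : (∑ t, if Pur q D.a D.β t then D.a t else 0) = ∑ t, D.a t := by
      convert h1
    omega
  · intro h1
    refine Finset.sum_congr rfl fun t _ => ?_
    rw [if_pos (h1 t)]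

end StrData

end

end Pool.Agent.WM66
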